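import Pool.Agent.W271.Three.Param

/-!
# The coprime triple attached to a minimal model with a rational 3-isogeny
-/

set_option autoImplicit false
set_option linter.unusedVariables false

namespace Pool.Agent.W271.Three

open Finset
open Pool.Agent.H328R2.ABC
open Pool.Agent.H925R.Szpiro (D IsMin condS)
open Pool.Agent.H925R.Two (cond_lower small_prime)

theorem triple (U V : ℤ) (hU : U ≠ 0) (hV : V ≠ 0) (hUV : U - V ≠ 0) :
    ∃ G x y z : ℕ, 0 < G ∧ 0 < x ∧ 0 < y ∧ 0 < z ∧ Nat.Coprime x y ∧ Nat.Coprime x z ∧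
      Nat.Coprime y z ∧ (x + y = z ∨ x + z = y ∨ y + z = x) ∧
      U.natAbs = G * x ∧ V.natAbs = G * y ∧ (U - V).natAbs = G * z := by
  set Un : ℕ := U.natAbs with hUn
  set Vn : ℕ := V.natAbs with hVn
  have hUn0 : Un ≠ 0 := Int.natAbs_ne_zero.mpr hU
  have hVn0 : Vn ≠ 0 := Int.natAbs_ne_zero.mpr hV
  set G : ℕ := Nat.gcd Un Vn with hG
  have hGpos : 0 < G := Nat.gcd_pos_of_pos_left _ (Nat.pos_of_ne_zero hUn0)
  obtain ⟨x, hx⟩ : G ∣ Un := Nat.gcd_dvd_left _ _
  obtain ⟨y, hy⟩ : G ∣ Vn := Nat.gcd_dvd_right _ _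
  have hx0 : 0 < x := Nat.pos_of_ne_zero (fun h => by rw [h, mul_zero] at hx; exact hUn0 hx)
  have hy0 : 0 < y := Nat.pos_of_ne_zero (fun h => by rw [h, mul_zero] at hy; exact hVn0 hy)
  have hxy : Nat.Coprime x y := by
    have := Nat.coprime_div_gcd_div_gcd (m := Un) (n := Vn) hGpos
    rw [← hG, hx, hy, Nat.mul_div_cancel_left _ hGpos, Nat.mul_div_cancel_left _ hGpos] at this
    exact this
  obtain ⟨sU, hsU, hUs⟩ : ∃ s : ℤ, (s = 1 ∨ s = -1) ∧ U = s * (Un : ℤ) := by
    rcases le_total 0 U with h0 | h0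
    · exact ⟨1, Or.inl rfl, by rw [hUn, Int.natCast_natAbs, abs_of_nonneg h0]; ring⟩
    · exact ⟨-1, Or.inr rfl, by rw [hUn, Int.natCast_natAbs, abs_of_nonpos h0]; ring⟩
  obtain ⟨sV, hsV, hVs⟩ : ∃ s : ℤ, (s = 1 ∨ s = -1) ∧ V = s * (Vn : ℤ) := by
    rcases le_total 0 V with h0 | h0
    · exact ⟨1, Or.inl rfl, by rw [hVn, Int.natCast_natAbs, abs_of_nonneg h0]; ring⟩
    · exact ⟨-1, Or.inr rfl, by rw [hVn, Int.natCast_natAbs, abs_of_nonpos h0]; ring⟩
  have hC : U - V = (G : ℤ) * (sU * x - sV * y) := by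
    rw [hUs, hVs, hx, hy]; push_cast; ring
  set z : ℕ := (sU * (x : ℤ) - sV * y).natAbs with hz
  have hz0 : 0 < z := by
    rw [hz]
    apply Nat.pos_of_ne_zero
    rw [Int.natAbs_ne_zero]
    intro h
    apply hUV
    rw [hC, h, mul_zero]
  have hCz : (U - V).natAbs = G * z := by
    rw [hC, Int.natAbs_mul, Int.natAbs_natCast]
  have hrel : x + y = z ∨ x + z = y ∨ y + z = x := by
    rcases hsU with h | h <;> rcases hsV with h' | h' <;> rw [h, h'] at hz <;>
      rcases le_total x y with h1 | h1 <;> omega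
  have hyz : Nat.Coprime y z := by
    rcases hrel with h | h | h
    · rw [← h]
      simpa using hxy.symm
    · have : y = z + x := by omega
      rw [this] at hxy ⊢
      have h9 : Nat.Coprime x z := by simpa [Nat.coprime_add_self_right] using hxy
      simpa using h9
    · rw [← h] at hxy
      have : Nat.Coprime z y := by simpa [Nat.coprime_comm] using hxy
      exact this.symm
  have hxz : Nat.Coprime x z := by
    rcases hrel with h | h | h
    · rw [← h]
      simpa using hxy
    · rw [← h] at hxy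
      simpa using hxy
    · rw [← h] at hxy ⊢
      have h1 : Nat.Coprime z y := by simpa [Nat.coprime_comm] using hxy
      simpa using h1.symm
  exact ⟨G, x, y, z, hGpos, hx0, hy0, hz0, hxy, hxz, hyz, hrel, hx, hy, hCz⟩

/-- the local data at a prime `p ≥ 5` -/
theorem loc5 (dd n tt G x y : ℕ) (hdd : Squarefree dd) (hn : 0 < n) (htt : 0 < tt) (hG : 0 < G)
    (hx : 0 < x) (hy : 0 < y) (hxy : Nat.Coprime x y) (hP : 4 * dd * n ^ 3 = G * x)
    (hQ : 27 * tt = G * y) (p : ℕ) (hp : p.Prime) (hp5 : 5 ≤ p)
    (hmin : p ∣ n → p ^ 3 ∣ tt → False) :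
    G.factorization p ≤ 2 ∧ (2 ≤ G.factorization p → p ∣ x) ∧ (p ∣ dd → ¬ p ∣ G → p ∣ x) ∧
      (p ∣ x → ¬ p ∣ n → p ∣ dd ∧ ¬ p ∣ G) ∧ (p ∣ G → ¬ p ∣ x → p ∣ dd) := by
  have hdd0 : dd ≠ 0 := hdd.ne_zero
  have hvd : dd.factorization p ≤ 1 := hdd.natFactorization_le_one p
  have h4 : (4 : ℕ).factorization p = 0 := by
    apply Nat.factorization_eq_zero_of_not_dvd
    intro h
    have := Nat.le_of_dvd (by norm_num) h
    omega
  have h27 : (27 : ℕ).factorization p = 0 := by
    apply Nat.factorization_eq_zero_of_not_dvd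
    intro h
    have h3 : p ∣ 3 ^ 3 := by norm_num; exact h
    have := Nat.le_of_dvd (by norm_num) (hp.dvd_of_dvd_pow h3)
    omega
  have e1 : dd.factorization p + 3 * n.factorization p =
      G.factorization p + x.factorization p := by
    have := congrArg (fun k : ℕ => k.factorization p) hP
    beta_reduce at this
    rw [Nat.factorization_mul (by positivity) (by positivity),
      Nat.factorization_mul (by norm_num) hdd0, Nat.factorization_pow,
      Nat.factorization_mul hG.ne' hx.ne'] at this
    simp only [Finsupp.smul_apply, Finsupp.add_apply, smul_eq_mul] at this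
    omega
  have e2 : tt.factorization p = G.factorization p + y.factorization p := by
    have := congrArg (fun k : ℕ => k.factorization p) hQ
    beta_reduce at this
    rw [Nat.factorization_mul (by norm_num) htt.ne', Nat.factorization_mul hG.ne' hy.ne'] at this
    simp only [Finsupp.add_apply] at this
    omega
  have e3 : 1 ≤ n.factorization p → tt.factorization p ≤ 2 := by
    intro h
    by_contra hcon
    push Not at hcon
    exact hmin ((hp.dvd_iff_one_le_factorization hn.ne').mpr h)
      ((hp.pow_dvd_iff_le_factorization htt.ne').mpr hcon)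
  rw [hp.dvd_iff_one_le_factorization hx.ne', hp.dvd_iff_one_le_factorization hdd0,
    hp.dvd_iff_one_le_factorization hG.ne', hp.dvd_iff_one_le_factorization hn.ne']
  refine ⟨?_, ?_, ?_, ?_, ?_⟩
  · by_contra hcon
    have : 1 ≤ n.factorization p := by omega
    have := e3 this
    omega
  · intro h
    have : 1 ≤ n.factorization p := by omega
    have := e3 this
    omega
  · intro h1 h2
    omega
  · intro h1 h2
    omega
  · intro h1 h2
    by_contra hcon
    have : 1 ≤ n.factorization p := by omega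
    have := e3 this
    omega

theorem loc2 (dd n tt G x y : ℕ) (hdd : Squarefree dd) (hn : 0 < n) (htt : 0 < tt) (hG : 0 < G)
    (hx : 0 < x) (hy : 0 < y) (hP : 4 * dd * n ^ 3 = G * x) (hQ : 27 * tt = G * y)
    (hmin : 2 ∣ n → 2 ^ 3 ∣ tt → False) : G.factorization 2 ≤ 8 := by
  have hdd0 : dd ≠ 0 := hdd.ne_zero
  have hp := Nat.prime_two
  have hvd : dd.factorization 2 ≤ 1 := hdd.natFactorization_le_one 2
  have h4 : (4 : ℕ).factorization 2 = 2 := by
    have : (4 : ℕ) = 2 ^ 2 := by norm_num
    rw [this, Nat.factorization_pow]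
    simp [Nat.prime_two.factorization_self]
  have h27 : (27 : ℕ).factorization 2 = 0 := by
    apply Nat.factorization_eq_zero_of_not_dvd
    norm_num
  have e1 : 2 + dd.factorization 2 + 3 * n.factorization 2 =
      G.factorization 2 + x.factorization 2 := by
    have := congrArg (fun k : ℕ => k.factorization 2) hP
    beta_reduce at this
    rw [Nat.factorization_mul (by positivity) (by positivity),
      Nat.factorization_mul (by norm_num) hdd0, Nat.factorization_pow,
      Nat.factorization_mul hG.ne' hx.ne'] at this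
    simp only [Finsupp.smul_apply, Finsupp.add_apply, smul_eq_mul] at this
    omega
  have e2 : tt.factorization 2 = G.factorization 2 + y.factorization 2 := by
    have := congrArg (fun k : ℕ => k.factorization 2) hQ
    beta_reduce at this
    rw [Nat.factorization_mul (by norm_num) htt.ne', Nat.factorization_mul hG.ne' hy.ne'] at this
    simp only [Finsupp.add_apply] at this
    omega
  by_contra hcon
  exact hmin ((hp.dvd_iff_one_le_factorization hn.ne').mpr (by omega))
      ((hp.pow_dvd_iff_le_factorization htt.ne').mpr (by omega))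

theorem loc3 (dd n tt G x y : ℕ) (hdd : Squarefree dd) (hn : 0 < n) (htt : 0 < tt) (hG : 0 < G)
    (hx : 0 < x) (hy : 0 < y) (hP : 4 * dd * n ^ 3 = G * x) (hQ : 27 * tt = G * y)
    (hmin : 3 ^ 2 ∣ n → 3 ^ 6 ∣ tt → False) : G.factorization 3 ≤ 8 := by
  have hdd0 : dd ≠ 0 := hdd.ne_zero
  have hp := Nat.prime_three
  have hvd : dd.factorization 3 ≤ 1 := hdd.natFactorization_le_one 3
  have h4 : (4 : ℕ).factorization 3 = 0 := by
    apply Nat.factorization_eq_zero_of_not_dvd
    norm_num
  have h27 : (27 : ℕ).factorization 3 = 3 := by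
    have : (27 : ℕ) = 3 ^ 3 := by norm_num
    rw [this, Nat.factorization_pow]
    simp [Nat.prime_three.factorization_self]
  have e1 : dd.factorization 3 + 3 * n.factorization 3 =
      G.factorization 3 + x.factorization 3 := by
    have := congrArg (fun k : ℕ => k.factorization 3) hP
    beta_reduce at this
    rw [Nat.factorization_mul (by positivity) (by positivity),
      Nat.factorization_mul (by norm_num) hdd0, Nat.factorization_pow,
      Nat.factorization_mul hG.ne' hx.ne'] at this
    simp only [Finsupp.smul_apply, Finsupp.add_apply, smul_eq_mul] at this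
    omega
  have e2 : 3 + tt.factorization 3 = G.factorization 3 + y.factorization 3 := by
    have := congrArg (fun k : ℕ => k.factorization 3) hQ
    beta_reduce at this
    rw [Nat.factorization_mul (by norm_num) htt.ne', Nat.factorization_mul hG.ne' hy.ne'] at this
    simp only [Finsupp.add_apply] at this
    omega
  by_contra hcon
  exact hmin ((hp.pow_dvd_iff_le_factorization hn.ne').mpr (by omega))
      ((hp.pow_dvd_iff_le_factorization htt.ne').mpr (by omega))

/-- the product decomposition of the gcd -/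
theorem decomp3 (dd n G x u : ℕ) (hdd : dd ≠ 0) (hn : n ≠ 0) (hG : 0 < G) (hx : 0 < x)
    (hu : 0 < u) (hxu : Nat.Coprime x u) (h2 : G.factorization 2 ≤ 8) (h3 : G.factorization 3 ≤ 8)
    (hloc : ∀ p : ℕ, p.Prime → 5 ≤ p → G.factorization p ≤ 2 ∧ (2 ≤ G.factorization p → p ∣ x) ∧
      (p ∣ dd → ¬ p ∣ G → p ∣ x) ∧ (p ∣ x → ¬ p ∣ n → p ∣ dd ∧ ¬ p ∣ G) ∧
      (p ∣ G → ¬ p ∣ x → p ∣ dd)) :
    ∃ c m h T : ℕ, 0 < c ∧ c ≤ 6 ^ 8 ∧ 0 < m ∧ 0 < h ∧ 0 < T ∧ G = c * m * h ∧ m ∣ dd ∧
      h ∣ (x * u) ^ 2 ∧ rad x ≤ 6 * n * T ∧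
      G * m * T ≤ c * (∏ p ∈ (G * dd).primeFactors.filter (fun p => 5 ≤ p), p) *
        (∏ p ∈ ((G * dd).primeFactors.filter (fun p => 5 ≤ p)).filter (fun p => ¬ p ∣ u), p) := by
  classical
  set W := (G * dd).primeFactors.filter (fun p => 5 ≤ p) with hW
  set v := G.factorization with hv
  have hpr : ∀ p ∈ W, p.Prime := fun p hp =>
    Nat.prime_of_mem_primeFactors (mem_filter.mp hp).1
  have hdv : ∀ p ∈ W, p ∣ G ∨ p ∣ dd := fun p hp =>
    (hpr p hp).dvd_mul.mp (Nat.dvd_of_mem_primeFactors (mem_filter.mp hp).1)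
  have hge : ∀ p ∈ W, 5 ≤ p := fun p hp => (mem_filter.mp hp).2
  have hv0 : ∀ p ∈ W, (p ∣ G ↔ 1 ≤ v p) := fun p hp =>
    (hpr p hp).dvd_iff_one_le_factorization hG.ne'
  have hnot : ∀ p ∈ W, p ∣ x → ¬ p ∣ u := fun p hp h1 h2 =>
    Nat.not_coprime_of_dvd_of_dvd (hpr p hp).one_lt h1 h2 hxu
  -- the free part
  have hfree : ∀ p ∈ W, ¬ p ∣ x → v p = 1 := by
    intro p hp hpx
    obtain ⟨l1, l2, l3, l4, l5⟩ := hloc p (hpr p hp) (hge p hp)
    have hpG : p ∣ G := by
      by_contra hcon
      rcases hdv p hp with h | h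
      · exact hcon h
      · exact hpx (l3 h hcon)
    have := (hv0 p hp).mp hpG
    by_contra hne
    exact hpx (l2 (by omega))
  set m := ∏ p ∈ W, (if ¬ p ∣ x ∧ ¬ p ∣ u then p else 1) with hm
  set h := ∏ p ∈ W, (if ¬ p ∣ x ∧ ¬ p ∣ u then 1 else p ^ v p) with hh
  set T := ∏ p ∈ W, (if ¬ p ∣ G then p else 1) with hT
  set c := ∏ p ∈ ({2, 3} : Finset ℕ), p ^ v p with hc
  have hitepos : ∀ (Q : ℕ → Prop) [DecidablePred Q], 0 < ∏ p ∈ W, (if Q p then p else 1) := by
    intro Q _
    refine prod_pos (fun p hp => ?_)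
    split_ifs
    · have := hge p hp; omega
    · norm_num
  have hcle : c ≤ 6 ^ 8 := by
    rw [hc, prod_pair (by norm_num)]
    calc 2 ^ v 2 * 3 ^ v 3 ≤ 2 ^ 8 * 3 ^ 8 :=
          Nat.mul_le_mul (Nat.pow_le_pow_right (by norm_num) h2)
            (Nat.pow_le_pow_right (by norm_num) h3)
      _ = 6 ^ 8 := by norm_num
  have hcpos : 0 < c := by
    rw [hc, prod_pair (by norm_num)]
    positivity
  have hfac : G = c * ∏ p ∈ W, p ^ v p := by
    have h1 : ∏ p ∈ G.primeFactors, p ^ v p = G :=
      Nat.prod_factorization_pow_eq_self hG.ne'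
    rw [← prod_filter_mul_prod_filter_not G.primeFactors (fun p => 5 ≤ p)] at h1
    have h3 : ∏ p ∈ G.primeFactors.filter (fun p => ¬ 5 ≤ p), p ^ v p = c := by
      rw [hc]
      refine prod_subset ?_ ?_
      · intro p hp
        rw [mem_filter] at hp
        exact small_prime p (Nat.prime_of_mem_primeFactors hp.1) hp.2
      · intro p hp hnot
        have h5 : ¬ 5 ≤ p := by
          simp only [mem_insert, mem_singleton] at hp
          omega
        rw [mem_filter, not_and'] at hnot
        have := hnot h5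
        rw [← Nat.support_factorization, Finsupp.notMem_support_iff] at this
        rw [hv, this, pow_zero]
    have h4 : ∏ p ∈ G.primeFactors.filter (fun p => 5 ≤ p), p ^ v p = ∏ p ∈ W, p ^ v p := by
      refine prod_subset ?_ ?_
      · intro p hp
        rw [mem_filter] at hp
        rw [hW, mem_filter]
        exact ⟨Nat.mem_primeFactors.mpr ⟨Nat.prime_of_mem_primeFactors hp.1,
          (Nat.dvd_of_mem_primeFactors hp.1).mul_right _, by positivity⟩, hp.2⟩
      · intro p hp hnot
        rw [mem_filter, not_and'] at hnot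
        have := hnot (hge p hp)
        rw [← Nat.support_factorization, Finsupp.notMem_support_iff] at this
        rw [hv, this, pow_zero]
    rw [h3, h4, mul_comm] at h1
    exact h1.symm
  have hGmh : G = c * m * h := by
    rw [mul_assoc, hm, hh, ← prod_mul_distrib]
    nth_rewrite 1 [hfac]
    congr 1
    refine prod_congr rfl (fun p hp => ?_)
    by_cases hq : ¬ p ∣ x ∧ ¬ p ∣ u
    · rw [if_pos hq, if_pos hq, hfree p hp hq.1, pow_one, mul_one]
    · rw [if_neg hq, if_neg hq, one_mul]
  refine ⟨c, m, h, T, hcpos, hcle, hitepos _, ?_, hitepos _, hGmh, ?_, ?_, ?_, ?_⟩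
  · rw [hh]
    refine prod_pos (fun p hp => ?_)
    split_ifs
    · norm_num
    · exact pow_pos (hpr p hp).pos _
  · rw [hm, ← prod_filter]
    refine Finset.prod_primes_dvd dd ?_ ?_
    · intro p hp
      rw [mem_filter] at hp
      exact (hpr p hp.1).prime
    · intro p hp
      obtain ⟨hp1, hp2, hp3⟩ := mem_filter.mp hp
      obtain ⟨l1, l2, l3, l4, l5⟩ := hloc p (hpr p hp1) (hge p hp1)
      exact l5 ((hv0 p hp1).mpr (by rw [hfree p hp1 hp2])) hp2
  · rw [hh]
    refine Finset.prod_dvd_of_isRelPrime ?_ ?_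
    · intro p hp q hq hpq
      have hcp : Nat.Coprime p q :=
        (Nat.coprime_primes (hpr p (mem_coe.mp hp)) (hpr q (mem_coe.mp hq))).mpr hpq
      show IsRelPrime _ _
      rw [← Nat.coprime_iff_isRelPrime]
      beta_reduce
      split_ifs
      · exact Nat.coprime_one_left _
      · exact Nat.coprime_one_left _
      · exact Nat.coprime_one_right _
      · exact Nat.Coprime.pow _ _ hcp
    · intro p hp
      split_ifs with hq
      · exact one_dvd _
      · obtain ⟨l1, l2, l3, l4, l5⟩ := hloc p (hpr p hp) (hge p hp)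
        refine (pow_dvd_pow p l1).trans ?_
        rw [not_and_or, not_not, not_not] at hq
        rcases hq with h | h
        · exact pow_dvd_pow_of_dvd (h.mul_right _) 2
        · exact pow_dvd_pow_of_dvd (h.mul_left _) 2
  · -- the radical of x
    unfold rad
    rw [← prod_filter_mul_prod_filter_not x.primeFactors (fun p => 5 ≤ p), mul_comm]
    have r1 : ∏ p ∈ x.primeFactors.filter (fun p => ¬ 5 ≤ p), p ≤ 6 := by
      have : ∏ p ∈ x.primeFactors.filter (fun p => ¬ 5 ≤ p), p ≤
          ∏ p ∈ ({2, 3} : Finset ℕ), p := by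
        refine prod_le_prod_of_subset_of_one_le' ?_ ?_
        · intro p hp
          rw [mem_filter] at hp
          exact small_prime p (Nat.prime_of_mem_primeFactors hp.1) hp.2
        · intro p hp _
          simp only [mem_insert, mem_singleton] at hp
          omega
      rw [prod_pair (by norm_num)] at this
      omega
    have r2 : ∏ p ∈ x.primeFactors.filter (fun p => 5 ≤ p), p ≤ n * T := by
      have s1 : ∏ p ∈ x.primeFactors.filter (fun p => 5 ≤ p), p =
          (∏ p ∈ (x.primeFactors.filter (fun p => 5 ≤ p)).filter (fun p => p ∣ n), p) *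
          ∏ p ∈ (x.primeFactors.filter (fun p => 5 ≤ p)).filter (fun p => ¬ p ∣ n), p :=
        (prod_filter_mul_prod_filter_not _ _ _).symm
      rw [s1]
      refine Nat.mul_le_mul ?_ ?_
      · apply Nat.le_of_dvd (Nat.pos_of_ne_zero hn)
        refine Finset.prod_primes_dvd n ?_ ?_
        · intro p hp
          rw [mem_filter, mem_filter] at hp
          exact (Nat.prime_of_mem_primeFactors hp.1.1).prime
        · intro p hp
          exact (mem_filter.mp hp).2
      · rw [hT, ← prod_filter]
        refine prod_le_prod_of_subset_of_one_le' ?_ ?_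
        · intro p hp
          rw [mem_filter, mem_filter] at hp
          obtain ⟨⟨hp1, hp5⟩, hpn⟩ := hp
          have hpp := Nat.prime_of_mem_primeFactors hp1
          obtain ⟨l1, l2, l3, l4, l5⟩ := hloc p hpp hp5
          obtain ⟨q1, q2⟩ := l4 (Nat.dvd_of_mem_primeFactors hp1) hpn
          rw [mem_filter, hW, mem_filter]
          exact ⟨⟨Nat.mem_primeFactors.mpr ⟨hpp, q1.mul_left _, by positivity⟩, hp5⟩, q2⟩
        · intro p hp _
          rw [mem_filter] at hp
          have := hge p hp.1
          omega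
    calc _ ≤ 6 * (n * T) := Nat.mul_le_mul r1 r2
      _ = 6 * n * T := by ring
  · -- the product inequality
    rw [prod_filter (s := W)]
    calc G * m * T = c * ((∏ p ∈ W, p ^ v p) * m * T) := by
          nth_rewrite 1 [hfac]; ring
      _ = c * (∏ p ∈ W, (p ^ v p * (if ¬ p ∣ x ∧ ¬ p ∣ u then p else 1) *
            (if ¬ p ∣ G then p else 1))) := by
          rw [hm, hT, prod_mul_distrib, prod_mul_distrib]
      _ ≤ c * (∏ p ∈ W, (p * (if ¬ p ∣ u then p else 1))) := by
          refine Nat.mul_le_mul_left _ (prod_le_prod' (fun p hp => ?_))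
          obtain ⟨l1, l2, l3, l4, l5⟩ := hloc p (hpr p hp) (hge p hp)
          have hp1 : 1 ≤ p := by have := hge p hp; omega
          by_cases hpx : p ∣ x
          · have hpu := hnot p hp hpx
            rw [if_neg (fun h => h.1 hpx), if_pos hpu, mul_one]
            by_cases hpG : p ∣ G
            · rw [if_neg (not_not.mpr hpG), mul_one, ← sq]
              exact Nat.pow_le_pow_right hp1 l1
            · rw [if_pos hpG]
              have : v p = 0 := by
                have := (hv0 p hp).not.mp hpG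
                omega
              rw [this, pow_zero, one_mul]
              exact Nat.le_mul_of_pos_left _ hp1
          · have hv1 := hfree p hp hpx
            have hpG : p ∣ G := (hv0 p hp).mpr (by omega)
            rw [hv1, pow_one, if_neg (not_not.mpr hpG), mul_one]
            by_cases hpu : p ∣ u
            · rw [if_neg (fun h => h.2 hpu), if_neg (not_not.mpr hpu)]
            · rw [if_pos ⟨hpx, hpu⟩, if_pos hpu]
      _ = c * ((∏ p ∈ W, p) * (∏ p ∈ W, (if ¬ p ∣ u then p else 1))) := by
          rw [prod_mul_distrib]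
      _ = _ := by ring

end Pool.Agent.W271.Three
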