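import Pool.Agent.W271.Three.Data

/-!
# The coprime triple attached to a minimal model with a rational 3-isogeny: the main data
-/

set_option autoImplicit false
set_option linter.unusedVariables false

namespace Pool.Agent.W271.Three

open Finset
open Pool.Agent.H328R2.ABC
open Pool.Agent.H925R.Szpiro (D IsMin condS)
open Pool.Agent.H925R.Two (cond_lower small_prime dvd_of_dvd_three_mul)

theorem not_dvd_small {p : ℕ} (hp : p.Prime) (hp5 : 5 ≤ p) : ¬ p ∣ 4 ∧ ¬ p ∣ 27 := by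
  constructor
  · intro h
    have := Nat.le_of_dvd (by norm_num) h
    omega
  · intro h
    have h3 : p ∣ 3 ^ 3 := by norm_num; exact h
    have := Nat.le_of_dvd (by norm_num) (hp.dvd_of_dvd_pow h3)
    omega

theorem sign_split (d : ℤ) : ∃ s : ℤ, (s = 1 ∨ s = -1) ∧ d = s * (d.natAbs : ℤ) := by
  rcases le_total 0 d with h0 | h0
  · exact ⟨1, Or.inl rfl, by rw [Int.natCast_natAbs, abs_of_nonneg h0]; ring⟩
  · exact ⟨-1, Or.inr rfl, by rw [Int.natCast_natAbs, abs_of_nonpos h0]; ring⟩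

theorem data3 (a b e : ℤ) (hmin : IsMin a b) (he0 : e ≠ 0)
    (he : 3 * e ^ 4 - 6 * a * e ^ 2 - 12 * b * e - a ^ 2 = 0) :
    ∃ (sd st : ℤ) (dd n tt c m h x y z : ℕ), (sd = 1 ∨ sd = -1) ∧ (st = 1 ∨ st = -1) ∧
      0 < dd ∧ 0 < n ∧ 0 < tt ∧ 0 < c ∧ c ≤ 6 ^ 8 ∧ 0 < m ∧ 0 < h ∧ 0 < x ∧ 0 < y ∧ 0 < z ∧
      Nat.Coprime x y ∧ Nat.Coprime x z ∧ Nat.Coprime y z ∧
      (x + y = z ∨ x + z = y ∨ y + z = x) ∧
      3 * e = sd * dd * n ^ 2 ∧ a = 3 * e ^ 2 - 2 * (sd * dd) * n * (st * tt) ∧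
      b = e ^ 3 - a * e - sd * dd * tt ^ 2 ∧
      4 * dd * n ^ 3 = c * m * h * x ∧ 27 * tt = c * m * h * y ∧
      m ≤ dd ∧ h ∣ (x * (y * z)) ^ 2 ∧
      rad x * rad (y * z) * (c * m * h) * m ≤ 36 * 6 ^ 8 * n * condS a b := by
  classical
  obtain ⟨d, n, t, hsq, hd0, hn0, ht0, h3e, ha, hb, hDd, hne⟩ := param a b e hmin.1 he0 he
  have hU : 4 * d * n ^ 3 ≠ 0 := by positivity
  have hV : 27 * t ≠ 0 := by positivity
  obtain ⟨G, x, y, z, hG, hx, hy, hz, hxy, hxz, hyz, hrel, hUG, hVG, hWG⟩ :=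
    triple (4 * d * n ^ 3) (27 * t) hU hV hne
  set dd := d.natAbs with hdd
  set nn := n.natAbs with hnn
  set tt := t.natAbs with htt
  have hdd0 : dd ≠ 0 := Int.natAbs_ne_zero.mpr hd0
  have hnn0 : nn ≠ 0 := Int.natAbs_ne_zero.mpr hn0.ne'
  have htt0 : tt ≠ 0 := Int.natAbs_ne_zero.mpr ht0
  have hP : 4 * dd * nn ^ 3 = G * x := by
    rw [← hUG, Int.natAbs_mul, Int.natAbs_mul, Int.natAbs_pow]; rfl
  have hQ : 27 * tt = G * y := by
    rw [← hVG, Int.natAbs_mul]; rfl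
  have hsqd : Squarefree dd := by rw [hdd, Int.squarefree_natAbs]; exact hsq
  have hcn : ∀ {p k : ℕ}, p ^ k ∣ nn → (p : ℤ) ^ k ∣ n := by
    intro p k h
    have : ((p ^ k : ℕ) : ℤ) ∣ n := Int.natCast_dvd.mpr h
    exact_mod_cast this
  have hct : ∀ {p k : ℕ}, p ^ k ∣ tt → (p : ℤ) ^ k ∣ t := by
    intro p k h
    have : ((p ^ k : ℕ) : ℤ) ∣ t := Int.natCast_dvd.mpr h
    exact_mod_cast this
  have hloc : ∀ p : ℕ, p.Prime → 5 ≤ p → G.factorization p ≤ 2 ∧
      (2 ≤ G.factorization p → p ∣ x) ∧ (p ∣ dd → ¬ p ∣ G → p ∣ x) ∧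
      (p ∣ x → ¬ p ∣ nn → p ∣ dd ∧ ¬ p ∣ G) ∧ (p ∣ G → ¬ p ∣ x → p ∣ dd) := by
    intro p hp hp5
    refine loc5 dd nn tt G x y hsqd (Nat.pos_of_ne_zero hnn0) (Nat.pos_of_ne_zero htt0) hG hx hy hxy
      hP hQ p hp hp5 (fun h1 h2 => ?_)
    refine min_p a b e d n t hmin h3e ha hb p hp (by omega) ?_ (hct h2)
    have := hcn (p := p) (k := 1) (by rw [pow_one]; exact h1)
    simpa using this
  have h2 := loc2 dd nn tt G x y hsqd (Nat.pos_of_ne_zero hnn0) (Nat.pos_of_ne_zero htt0) hG hx hy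
      hP hQ (fun h1 h2 => by
        refine min_p a b e d n t hmin h3e ha hb 2 Nat.prime_two (by omega) ?_ (hct h2)
        have := hcn (p := 2) (k := 1) (by rw [pow_one]; exact h1)
        simpa using this)
  have h3 := loc3 dd nn tt G x y hsqd (Nat.pos_of_ne_zero hnn0) (Nat.pos_of_ne_zero htt0) hG hx hy
      hP hQ (fun h1 h2 => by
        refine min_3 a b e d n t hmin h3e ha hb ?_ ?_
        · have := hcn h1
          norm_num at this
          exact this
        · have := hct h2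
          norm_num at this
          exact this)
  have hxu : Nat.Coprime x (y * z) := Nat.Coprime.mul_right hxy hxz
  obtain ⟨c, m, h, T, hc, hc8, hm, hh, hT, hGc, hmd, hhd, hrx, hprod⟩ :=
    decomp3 dd nn G x (y * z) hdd0 hnn0 hG hx (by positivity) hxu h2 h3 hloc
  -- divisibility at primes at least 5
  have hpt : ∀ p : ℕ, p.Prime → 5 ≤ p → p ∣ G * y → (p : ℤ) ∣ t := by
    intro p hp hp5 hpG
    rw [← hQ] at hpG
    rcases hp.dvd_mul.mp hpG with h | h
    · exact absurd h (not_dvd_small hp hp5).2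
    · exact Int.natCast_dvd.mpr h
  have hpd : ∀ p : ℕ, p.Prime → 5 ≤ p → p ∣ G → (p : ℤ) ∣ d * n ^ 2 := by
    intro p hp hp5 hpG
    have h1 : p ∣ 4 * dd * nn ^ 3 := by rw [hP]; exact hpG.mul_right _
    rcases hp.dvd_mul.mp h1 with h | h
    · rcases hp.dvd_mul.mp h with h | h
      · exact absurd h (not_dvd_small hp hp5).1
      · exact (Int.natCast_dvd.mpr h).mul_right _
    · have : (p : ℤ) ∣ n := Int.natCast_dvd.mpr (hp.dvd_of_dvd_pow h)
      exact (this.pow (by norm_num)).mul_left _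
  have hpe : ∀ p : ℕ, p.Prime → 5 ≤ p → (p : ℤ) ∣ d * n ^ 2 → (p : ℤ) ∣ e := by
    intro p hp hp5 h1
    have : (p : ℤ) ^ 1 ∣ 3 * e := by rw [pow_one, h3e]; exact h1
    have := dvd_of_dvd_three_mul hp (by omega) this
    simpa using this
  have hlow := cond_lower a b hmin.1 ((G * dd).primeFactors.filter (fun p => 5 ≤ p)) (y * z)
    (by positivity) (by
      intro p hp
      rw [mem_filter] at hp
      have hpp := Nat.prime_of_mem_primeFactors hp.1
      refine ⟨hpp, hp.2, ?_, ?_⟩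
      · rw [ha]
        rcases hpp.dvd_mul.mp (Nat.dvd_of_mem_primeFactors hp.1) with h | h
        · have q1 := hpe p hpp hp.2 (hpd p hpp hp.2 h)
          have q2 := hpt p hpp hp.2 (h.mul_right _)
          exact dvd_sub ((q1.pow (by norm_num)).mul_left 3) (q2.mul_left _)
        · have q0 : (p : ℤ) ∣ d := Int.natCast_dvd.mpr h
          have q1 := hpe p hpp hp.2 (q0.mul_right _)
          refine dvd_sub ((q1.pow (by norm_num)).mul_left 3) ?_
          exact ((q0.mul_left 2).mul_right _).mul_right _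
      · rw [hDd]
        rcases hpp.dvd_mul.mp (Nat.dvd_of_mem_primeFactors hp.1) with h | h
        · have q2 := hpt p hpp hp.2 (h.mul_right _)
          exact ((q2.pow (by norm_num)).mul_left _).mul_right _
        · have q0 : (p : ℤ) ∣ d := Int.natCast_dvd.mpr h
          exact ((q0.pow (by norm_num)).mul_right _).mul_right _) (by
      intro p hp hp5 hpn
      rw [hDd]
      rcases hp.dvd_mul.mp hpn with h | h
      · have q2 := hpt p hp hp5 (h.mul_left _)
        exact ((q2.pow (by norm_num)).mul_left _).mul_right _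
      · refine Dvd.dvd.mul_left ?_ _
        rw [Int.natCast_dvd, hWG]
        exact h.mul_left _)
  obtain ⟨sd, hsd, hds⟩ := sign_split d
  obtain ⟨st, hst, hts⟩ := sign_split t
  have hnz : n = (nn : ℤ) := by rw [hnn, Int.natCast_natAbs, abs_of_pos hn0]
  refine ⟨sd, st, dd, nn, tt, c, m, h, x, y, z, hsd, hst, Nat.pos_of_ne_zero hdd0,
    Nat.pos_of_ne_zero hnn0, Nat.pos_of_ne_zero htt0, hc, hc8, hm, hh, hx, hy, hz, hxy, hxz, hyz,
    hrel, ?_, ?_, ?_, ?_, ?_, Nat.le_of_dvd (Nat.pos_of_ne_zero hdd0) hmd, hhd, ?_⟩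
  · rw [← hnz, ← hds]; exact h3e
  · rw [← hnz, ← hds, ← hts]; exact ha
  · rw [← hds]
    have : ((tt : ℕ) : ℤ) ^ 2 = t ^ 2 := by rw [htt, Int.natCast_natAbs, sq_abs]
    rw [this]; exact hb
  · rw [hP, hGc]
  · rw [hQ, hGc]
  · rw [← hGc]
    set R := ∏ p ∈ (G * dd).primeFactors.filter (fun p => 5 ≤ p), p with hR
    set R' := ∏ p ∈ ((G * dd).primeFactors.filter (fun p => 5 ≤ p)).filter
      (fun p => ¬ p ∣ y * z), p with hR'
    calc rad x * rad (y * z) * G * m ≤ (6 * nn * T) * rad (y * z) * G * m := by gcongr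
      _ = 6 * nn * rad (y * z) * (G * m * T) := by ring
      _ ≤ 6 * nn * rad (y * z) * (c * R * R') := Nat.mul_le_mul_left _ hprod
      _ = 6 * nn * c * (rad (y * z) * R * R') := by ring
      _ ≤ 6 * nn * c * (6 * condS a b) := Nat.mul_le_mul_left _ hlow
      _ = 36 * c * nn * condS a b := by ring
      _ ≤ 36 * 6 ^ 8 * nn * condS a b := by gcongr

end Pool.Agent.W271.Three
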