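import Pool.Agent.W271.Three.Unif
import Pool.Agent.H705R2.Szp.Pairs2

/-!
# The pairs attached to a twist
-/

set_option autoImplicit false
set_option linter.unusedVariables false

namespace Pool.Agent.W271.Three

open Finset
open Pool.Agent.H328R2.ABC

theorem p47 : P47 := fun B lam ε h0 h1 hε => Pool.Agent.H705R2.Szp.pairs47 B lam ε h0 h1 hε

/-- the pairs attached to the twist `m` -/
def PC (κ B : ℝ) (X m : ℕ) (t : ℕ × ℕ) : Prop :=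
  0 < t.1 ∧ 0 < t.2 ∧ Nat.Coprime t.1 t.2 ∧ m ^ 3 * (t.1 + t.2) ^ 2 ≤ 68526 * X ^ 3 ∧
    (rad (t.1 * t.2 * (t.1 + t.2)) : ℝ) * (m : ℝ) ^ (2 - 6 / κ) ≤
      B * ((t.1 + t.2 : ℕ) : ℝ) ^ (1 / 3 + 4 / κ)

/-- the sum of a pair attached to `m` is at most `262 (X / m) ^ (3/2)` -/
theorem sum_le_of (X m s : ℕ) (hX : 1 ≤ X) (hm : 1 ≤ m) (h : m ^ 3 * s ^ 2 ≤ 68526 * X ^ 3) :
    (s : ℝ) ≤ 262 * ((X : ℝ) / m) ^ ((3 : ℝ) / 2) := by
  have hX0 : (0 : ℝ) < X := by exact_mod_cast hX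
  have hm0 : (0 : ℝ) < m := by exact_mod_cast hm
  have hr : (0 : ℝ) < (X : ℝ) / m := by positivity
  have h1 : (m : ℝ) ^ 3 * (s : ℝ) ^ 2 ≤ 68526 * (X : ℝ) ^ 3 := by exact_mod_cast h
  have h2 : (s : ℝ) ^ 2 ≤ (262 * ((X : ℝ) / m) ^ ((3 : ℝ) / 2)) ^ 2 := by
    have e : (262 * ((X : ℝ) / m) ^ ((3 : ℝ) / 2)) ^ 2 = 68644 * ((X : ℝ) / m) ^ 3 := by
      rw [mul_pow, ← Real.rpow_natCast (((X : ℝ) / m) ^ ((3 : ℝ) / 2)) 2, ← Real.rpow_mul hr.le]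
      norm_num
    rw [e, div_pow, mul_div_assoc', le_div_iff₀ (by positivity)]
    have : (0 : ℝ) ≤ (X : ℝ) ^ 3 := by positivity
    nlinarith
  exact le_of_pow_le_pow_left₀ (by norm_num) (by positivity) h2

theorem lam_bounds (κ : ℝ) (hκ : 6 ≤ κ) : 0 < 1 / 3 + 4 / κ ∧ 1 / 3 + 4 / κ ≤ 1 ∧
    0 ≤ 2 - 6 / κ := by
  have hκ0 : 0 < κ := by linarith
  have h1 : 4 / κ ≤ 4 / 6 := div_le_div_of_nonneg_left (by norm_num) (by norm_num) hκ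
  have h2 : 6 / κ ≤ 6 / 6 := div_le_div_of_nonneg_left (by norm_num) (by norm_num) hκ
  refine ⟨by positivity, by linarith, by linarith⟩

/-- bound `4 lam / 7` for the pairs attached to `m` -/
theorem pairs_A (κ B ε : ℝ) (hκ : 6 ≤ κ) (hB : 1 ≤ B) (hε : 0 < ε) :
    ∃ C : ℝ, 0 < C ∧ ∀ X : ℕ, 1 ≤ X → ∀ m : ℕ, 1 ≤ m → ∀ S : Finset (ℕ × ℕ),
      (∀ t ∈ S, PC κ B X m t) →
      (S.card : ℝ) ≤ C * ((X : ℝ) ^ (2 / 7 + 24 / (7 * κ) + ε) * (m : ℝ) ^ (-(10 / 7) : ℝ)) := by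
  classical
  have hκ0 : 0 < κ := by linarith
  obtain ⟨hl0, hl1, hs0⟩ := lam_bounds κ hκ
  set lam : ℝ := 1 / 3 + 4 / κ with hlam
  obtain ⟨C, hC, h⟩ := unif47 p47 B (2 / 3 * ε) hB (by positivity)
  refine ⟨C * (262 : ℝ) ^ (2 / 3 * ε) * (B * (262 : ℝ) ^ lam) ^ ((4 : ℝ) / 7), by positivity, ?_⟩
  intro X hX m hm S hS
  have hX1 : (1 : ℝ) ≤ X := by exact_mod_cast hX
  have hX0 : (0 : ℝ) < X := by linarith
  have hm1 : (1 : ℝ) ≤ m := by exact_mod_cast hm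
  have hm0 : (0 : ℝ) < m := by linarith
  have hr : (0 : ℝ) < (X : ℝ) / m := by positivity
  rcases S.eq_empty_or_nonempty with rfl | ⟨t0, ht0⟩
  · simp only [card_empty, Nat.cast_zero]
    positivity
  set Z : ℝ := 262 * ((X : ℝ) / m) ^ ((3 : ℝ) / 2) with hZ
  have hZ0 : 0 < Z := by positivity
  have hsum : ∀ t ∈ S, ((t.1 + t.2 : ℕ) : ℝ) ≤ Z := by
    intro t ht
    obtain ⟨q1, q2, q3, q4, q5⟩ := hS t ht
    exact sum_le_of X m (t.1 + t.2) hX hm q4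
  have hZ1 : 1 ≤ Z := by
    obtain ⟨q1, q2, q3, q4, q5⟩ := hS t0 ht0
    have := hsum t0 ht0
    have h1 : (1 : ℝ) ≤ ((t0.1 + t0.2 : ℕ) : ℝ) := by exact_mod_cast (by omega : 1 ≤ t0.1 + t0.2)
    linarith
  have hmp : (1 : ℝ) ≤ (m : ℝ) ^ (2 - 6 / κ) := Real.one_le_rpow hm1 hs0
  have hmp0 : (0 : ℝ) < (m : ℝ) ^ (2 - 6 / κ) := by positivity
  set R : ℝ := B * Z ^ lam / (m : ℝ) ^ (2 - 6 / κ) with hR
  have hR0 : 0 < R := by positivity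
  have q := h ⌊Z⌋₊ (Nat.le_floor (by rw [Nat.cast_one]; exact hZ1)) R hR0 S (fun t ht => by
    obtain ⟨q1, q2, q3, q4, q5⟩ := hS t ht
    have hs1 : (1 : ℝ) ≤ ((t.1 + t.2 : ℕ) : ℝ) := by exact_mod_cast (by omega : 1 ≤ t.1 + t.2)
    have hrad0 : (0 : ℝ) ≤ (rad (t.1 * t.2 * (t.1 + t.2)) : ℝ) := Nat.cast_nonneg _
    refine ⟨q1, q2, q3, Nat.le_floor (hsum t ht), ?_, ?_⟩
    · calc (rad (t.1 * t.2 * (t.1 + t.2)) : ℝ)
          ≤ (rad (t.1 * t.2 * (t.1 + t.2)) : ℝ) * (m : ℝ) ^ (2 - 6 / κ) :=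
            le_mul_of_one_le_right hrad0 hmp
        _ ≤ B * ((t.1 + t.2 : ℕ) : ℝ) ^ lam := q5
        _ ≤ B * ((t.1 + t.2 : ℕ) : ℝ) := by
            apply mul_le_mul_of_nonneg_left _ (by linarith)
            calc ((t.1 + t.2 : ℕ) : ℝ) ^ lam ≤ ((t.1 + t.2 : ℕ) : ℝ) ^ (1 : ℝ) :=
                  Real.rpow_le_rpow_of_exponent_le hs1 hl1
              _ = _ := Real.rpow_one _
    · rw [hR, le_div_iff₀ hmp0]
      refine q5.trans (mul_le_mul_of_nonneg_left ?_ (by linarith))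
      exact Real.rpow_le_rpow (by linarith) (hsum t ht) hl0.le)
  have e1 : ((⌊Z⌋₊ : ℕ) : ℝ) ^ (2 / 3 * ε) ≤ (262 : ℝ) ^ (2 / 3 * ε) * (X : ℝ) ^ ε := by
    calc ((⌊Z⌋₊ : ℕ) : ℝ) ^ (2 / 3 * ε) ≤ Z ^ (2 / 3 * ε) :=
          Real.rpow_le_rpow (Nat.cast_nonneg _) (Nat.floor_le hZ0.le) (by positivity)
      _ ≤ (262 * (X : ℝ) ^ ((3 : ℝ) / 2)) ^ (2 / 3 * ε) := by
          apply Real.rpow_le_rpow hZ0.le _ (by positivity)
          rw [hZ]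
          have : (X : ℝ) / m ≤ X := div_le_self hX0.le hm1
          gcongr
      _ = (262 : ℝ) ^ (2 / 3 * ε) * (X : ℝ) ^ ε := by
          rw [Real.mul_rpow (by norm_num) (by positivity), ← Real.rpow_mul hX0.le]
          congr 2
          ring
  have e2 : R ^ ((4 : ℝ) / 7) = (B * (262 : ℝ) ^ lam) ^ ((4 : ℝ) / 7) *
      ((X : ℝ) ^ (2 / 7 + 24 / (7 * κ)) * (m : ℝ) ^ (-(10 / 7) : ℝ)) := by
    have f1 : R = (B * (262 : ℝ) ^ lam) * (((X : ℝ) / m) ^ ((3 : ℝ) / 2 * lam) *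
        (m : ℝ) ^ (-(2 - 6 / κ))) := by
      rw [hR, hZ, Real.mul_rpow (by norm_num) (by positivity), ← Real.rpow_mul hr.le,
        Real.rpow_neg hm0.le]
      ring
    have hBl : (0 : ℝ) ≤ B * (262 : ℝ) ^ lam := by positivity
    rw [f1, Real.mul_rpow hBl (by positivity)]
    congr 1
    rw [Real.mul_rpow (by positivity) (by positivity), ← Real.rpow_mul hr.le,
      ← Real.rpow_mul hm0.le, Real.div_rpow hX0.le hm0.le]
    rw [div_mul_eq_mul_div, mul_div_assoc, ← Real.rpow_sub hm0]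
    have g2 : -(2 - 6 / κ) * (4 / 7) - 3 / 2 * lam * (4 / 7) = -(10 / 7) := by
      rw [hlam]; field_simp; ring
    have g1 : 3 / 2 * lam * (4 / 7) = 2 / 7 + 24 / (7 * κ) := by
      rw [hlam]; field_simp; ring
    rw [g2, g1]
  calc (S.card : ℝ) ≤ C * ((⌊Z⌋₊ : ℕ) : ℝ) ^ (2 / 3 * ε) * R ^ ((4 : ℝ) / 7) := q
    _ ≤ C * ((262 : ℝ) ^ (2 / 3 * ε) * (X : ℝ) ^ ε) * R ^ ((4 : ℝ) / 7) := by gcongr
    _ = C * (262 : ℝ) ^ (2 / 3 * ε) * (B * (262 : ℝ) ^ lam) ^ ((4 : ℝ) / 7) *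
        (((X : ℝ) ^ (2 / 7 + 24 / (7 * κ)) * (X : ℝ) ^ ε) * (m : ℝ) ^ (-(10 / 7) : ℝ)) := by
        rw [e2]; ring
    _ = _ := by rw [← Real.rpow_add hX0]

/-- bound `6 / 11` for the pairs attached to `m` -/
theorem pairs_B (κ B ε : ℝ) (hκ : 6 ≤ κ) (hB : 1 ≤ B) (hε : 0 < ε) :
    ∃ C : ℝ, 0 < C ∧ ∀ X : ℕ, 1 ≤ X → ∀ m : ℕ, 1 ≤ m → ∀ S : Finset (ℕ × ℕ),
      (∀ t ∈ S, PC κ B X m t) →
      (S.card : ℝ) ≤ C * ((X : ℝ) ^ (9 / 11 + ε) * (m : ℝ) ^ (-(9 / 11) : ℝ)) := by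
  classical
  have hκ0 : 0 < κ := by linarith
  obtain ⟨hl0, hl1, hs0⟩ := lam_bounds κ hκ
  set lam : ℝ := 1 / 3 + 4 / κ with hlam
  obtain ⟨C, hC, h⟩ := Pool.Agent.H705R2.Szp.pairs611 B 1 (2 / 3 * ε) (by positivity)
  have hmax : max ((1 : ℝ) - 1) 0 = 0 := by norm_num
  rw [hmax, add_zero] at h
  refine ⟨C * (262 : ℝ) ^ (6 / 11 + 2 / 3 * ε), by positivity, ?_⟩
  intro X hX m hm S hS
  have hX1 : (1 : ℝ) ≤ X := by exact_mod_cast hX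
  have hX0 : (0 : ℝ) < X := by linarith
  have hm1 : (1 : ℝ) ≤ m := by exact_mod_cast hm
  have hm0 : (0 : ℝ) < m := by linarith
  have hr : (0 : ℝ) < (X : ℝ) / m := by positivity
  rcases S.eq_empty_or_nonempty with rfl | ⟨t0, ht0⟩
  · simp only [card_empty, Nat.cast_zero]
    positivity
  set Z : ℝ := 262 * ((X : ℝ) / m) ^ ((3 : ℝ) / 2) with hZ
  have hZ0 : 0 < Z := by positivity
  have hsum : ∀ t ∈ S, ((t.1 + t.2 : ℕ) : ℝ) ≤ Z := by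
    intro t ht
    obtain ⟨q1, q2, q3, q4, q5⟩ := hS t ht
    exact sum_le_of X m (t.1 + t.2) hX hm q4
  have hZ1 : 1 ≤ Z := by
    obtain ⟨q1, q2, q3, q4, q5⟩ := hS t0 ht0
    have := hsum t0 ht0
    have h1 : (1 : ℝ) ≤ ((t0.1 + t0.2 : ℕ) : ℝ) := by exact_mod_cast (by omega : 1 ≤ t0.1 + t0.2)
    linarith
  have hmp : (1 : ℝ) ≤ (m : ℝ) ^ (2 - 6 / κ) := Real.one_le_rpow hm1 hs0
  have q := h ⌊Z⌋₊ (Nat.le_floor (by rw [Nat.cast_one]; exact hZ1)) S (fun t ht => by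
    obtain ⟨q1, q2, q3, q4, q5⟩ := hS t ht
    have hs1 : (1 : ℝ) ≤ ((t.1 + t.2 : ℕ) : ℝ) := by exact_mod_cast (by omega : 1 ≤ t.1 + t.2)
    have hrad0 : (0 : ℝ) ≤ (rad (t.1 * t.2 * (t.1 + t.2)) : ℝ) := Nat.cast_nonneg _
    refine ⟨q1, q2, q3, Nat.le_floor (hsum t ht), ?_⟩
    calc (rad (t.1 * t.2 * (t.1 + t.2)) : ℝ)
          ≤ (rad (t.1 * t.2 * (t.1 + t.2)) : ℝ) * (m : ℝ) ^ (2 - 6 / κ) :=
            le_mul_of_one_le_right hrad0 hmp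
        _ ≤ B * ((t.1 + t.2 : ℕ) : ℝ) ^ lam := q5
        _ ≤ B * ((t.1 + t.2 : ℕ) : ℝ) ^ (1 : ℝ) := by
            apply mul_le_mul_of_nonneg_left _ (by linarith)
            exact Real.rpow_le_rpow_of_exponent_le hs1 hl1)
  calc (S.card : ℝ) ≤ C * ((⌊Z⌋₊ : ℕ) : ℝ) ^ (6 / 11 + 2 / 3 * ε) := q
    _ ≤ C * Z ^ (6 / 11 + 2 / 3 * ε) := by
        apply mul_le_mul_of_nonneg_left _ hC.le
        exact Real.rpow_le_rpow (Nat.cast_nonneg _) (Nat.floor_le hZ0.le) (by positivity)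
    _ = C * (262 : ℝ) ^ (6 / 11 + 2 / 3 * ε) * (((X : ℝ) / m) ^ ((9 : ℝ) / 11) *
        ((X : ℝ) / m) ^ ε) := by
        rw [hZ, Real.mul_rpow (by norm_num) (by positivity), ← Real.rpow_mul hr.le,
          ← Real.rpow_add hr, mul_assoc]
        congr 3
        ring
    _ ≤ C * (262 : ℝ) ^ (6 / 11 + 2 / 3 * ε) * (((X : ℝ) / m) ^ ((9 : ℝ) / 11) *
        (X : ℝ) ^ ε) := by
        have : (X : ℝ) / m ≤ X := div_le_self hX0.le hm1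
        gcongr
    _ = _ := by
        rw [Real.div_rpow hX0.le hm0.le, Real.rpow_neg hm0.le, Real.rpow_add hX0]
        ring

/-- the exponent -/
noncomputable def expo (κ : ℝ) : ℝ := min (31 / 47 + 48 / (47 * κ)) (2 / 7 + 24 / (7 * κ))

theorem expo_pos (κ : ℝ) (hκ : 6 ≤ κ) : 0 < expo κ := by
  have hκ0 : 0 < κ := by linarith
  exact lt_min (by positivity) (by positivity)

/-- the pairs attached to `m`: final bound -/
theorem pairs_C (κ B ε : ℝ) (hκ : 6 ≤ κ) (hB : 1 ≤ B) (hε : 0 < ε) :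
    ∃ C : ℝ, 0 < C ∧ ∀ X : ℕ, 1 ≤ X → ∀ m : ℕ, 1 ≤ m → ∀ S : Finset (ℕ × ℕ),
      (∀ t ∈ S, PC κ B X m t) →
      (S.card : ℝ) ≤ C * (X : ℝ) ^ (expo κ + ε) * (1 / m) := by
  have hκ0 : 0 < κ := by linarith
  obtain ⟨C1, hC1, h1⟩ := pairs_A κ B ε hκ hB hε
  obtain ⟨C2, hC2, h2⟩ := pairs_B κ B ε hκ hB hε
  refine ⟨C1 + C2, by positivity, ?_⟩
  intro X hX m hm S hS
  have hX1 : (1 : ℝ) ≤ X := by exact_mod_cast hX
  have hX0 : (0 : ℝ) < X := by linarith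
  have hm1 : (1 : ℝ) ≤ m := by exact_mod_cast hm
  have hm0 : (0 : ℝ) < m := by linarith
  have q1 := h1 X hX m hm S hS
  have q2 := h2 X hX m hm S hS
  have hS0 : (0 : ℝ) ≤ S.card := Nat.cast_nonneg _
  set C := C1 + C2 with hC
  have hC0 : 0 < C := by positivity
  unfold expo
  rcases min_choice (31 / 47 + 48 / (47 * κ)) (2 / 7 + 24 / (7 * κ)) with h | h
  · rw [h]
    have r1 : (S.card : ℝ) ≤ C * ((X : ℝ) ^ (2 / 7 + 24 / (7 * κ) + ε) *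
        (m : ℝ) ^ (-(10 / 7) : ℝ)) := by
      refine q1.trans (mul_le_mul_of_nonneg_right ?_ (by positivity))
      linarith
    have r2 : (S.card : ℝ) ≤ C * ((X : ℝ) ^ (9 / 11 + ε) * (m : ℝ) ^ (-(9 / 11) : ℝ)) := by
      refine q2.trans (mul_le_mul_of_nonneg_right ?_ (by positivity))
      linarith
    have r3 : (S.card : ℝ) = (S.card : ℝ) ^ ((14 : ℝ) / 47) * (S.card : ℝ) ^ ((33 : ℝ) / 47) := by
      rcases hS0.eq_or_lt with h0 | h0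
      · rw [← h0, Real.zero_rpow (by norm_num), zero_mul]
      · rw [← Real.rpow_add h0]; norm_num
    calc (S.card : ℝ) = (S.card : ℝ) ^ ((14 : ℝ) / 47) * (S.card : ℝ) ^ ((33 : ℝ) / 47) := r3
      _ ≤ (C * ((X : ℝ) ^ (2 / 7 + 24 / (7 * κ) + ε) * (m : ℝ) ^ (-(10 / 7) : ℝ))) ^
            ((14 : ℝ) / 47) *
          (C * ((X : ℝ) ^ (9 / 11 + ε) * (m : ℝ) ^ (-(9 / 11) : ℝ))) ^ ((33 : ℝ) / 47) :=
          mul_le_mul (Real.rpow_le_rpow hS0 r1 (by norm_num)) (Real.rpow_le_rpow hS0 r2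
            (by norm_num)) (Real.rpow_nonneg hS0 _) (Real.rpow_nonneg (hS0.trans r1) _)
      _ = (C ^ ((14 : ℝ) / 47) * C ^ ((33 : ℝ) / 47)) *
          ((X : ℝ) ^ ((2 / 7 + 24 / (7 * κ) + ε) * ((14 : ℝ) / 47)) *
            (X : ℝ) ^ ((9 / 11 + ε) * ((33 : ℝ) / 47))) *
          ((m : ℝ) ^ (-(10 / 7) * ((14 : ℝ) / 47)) * (m : ℝ) ^ (-(9 / 11) * ((33 : ℝ) / 47))) := by
          rw [Real.mul_rpow hC0.le (by positivity), Real.mul_rpow hC0.le (by positivity),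
            Real.mul_rpow (by positivity) (by positivity),
            Real.mul_rpow (by positivity) (by positivity), ← Real.rpow_mul hX0.le,
            ← Real.rpow_mul hX0.le, ← Real.rpow_mul hm0.le, ← Real.rpow_mul hm0.le]
          ring
      _ = C * (X : ℝ) ^ (31 / 47 + 48 / (47 * κ) + ε) * (1 / m) := by
          rw [← Real.rpow_add hC0, ← Real.rpow_add hX0, ← Real.rpow_add hm0]
          have f1 : (14 : ℝ) / 47 + 33 / 47 = 1 := by norm_num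
          have f2 : (2 / 7 + 24 / (7 * κ) + ε) * ((14 : ℝ) / 47) + (9 / 11 + ε) * (33 / 47) =
              31 / 47 + 48 / (47 * κ) + ε := by field_simp; ring
          have f3 : -(10 / 7) * ((14 : ℝ) / 47) + -(9 / 11) * (33 / 47) = -1 := by norm_num
          rw [f1, f2, f3, Real.rpow_one, Real.rpow_neg_one, one_div]
  · rw [h]
    calc (S.card : ℝ) ≤ C1 * ((X : ℝ) ^ (2 / 7 + 24 / (7 * κ) + ε) *
          (m : ℝ) ^ (-(10 / 7) : ℝ)) := q1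
      _ ≤ C * ((X : ℝ) ^ (2 / 7 + 24 / (7 * κ) + ε) * (m : ℝ) ^ (-1 : ℝ)) := by
          have e1 : C1 ≤ C := by linarith
          have e2 : (m : ℝ) ^ (-(10 / 7) : ℝ) ≤ (m : ℝ) ^ (-1 : ℝ) :=
            Real.rpow_le_rpow_of_exponent_le hm1 (by norm_num)
          gcongr
      _ = _ := by rw [Real.rpow_neg_one, one_div]; ring

end Pool.Agent.W271.Three
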