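import Pool.Agent.W271.Three.Size
import Pool.Agent.W271.Three.Twist
import Pool.Agent.H510R2.Div
import Pool.Agent.H328R2.ABC.RadSum

/-!
# The exceptional set of (modified) Szpiro's inequality for curves with a rational 3-isogeny
-/

set_option autoImplicit false
set_option linter.unusedVariables false

namespace Pool.Agent.W271.Three

open Finset
open Pool.Agent.H328R2.ABC
open Pool.Agent.H925R.Szpiro (D IsMin condS)
open Pool.Agent.H925R.Two (cond_lower small_prime)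

/-- a rational root of the 3-division polynomial -/
def HasThree (a b : ℤ) : Prop := ∃ r : ℚ, 3 * r ^ 4 - 6 * a * r ^ 2 - 12 * b * r - a ^ 2 = 0

/-- the exceptional set -/
def Exc3 (κ K : ℝ) (X : ℕ) : Set (ℤ × ℤ) :=
  {q | IsMin q.1 q.2 ∧ HasThree q.1 q.2 ∧ |q.1| ≤ (X : ℤ) ^ 2 ∧ |q.2| ≤ (X : ℤ) ^ 3 ∧
    (condS q.1 q.2 : ℝ) ^ κ < K * (4 * |(q.1 : ℝ)| ^ 3 + 27 * (q.2 : ℝ) ^ 2)}

/-- which terms of the triple are `x`, `y` -/
def xyOf (i : ℕ) (t : ℕ × ℕ) : ℕ × ℕ :=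
  if i = 0 then (t.1, t.2) else if i = 1 then (t.1, t.1 + t.2) else (t.1 + t.2, t.1)

/-- the model -/
def mdl (sd st : ℤ) (g y dd n : ℕ) : ℤ × ℤ :=
  (3 * (sd * dd * n ^ 2 / 3) ^ 2 - 2 * (sd * dd) * n * (st * ((g * y / 27 : ℕ) : ℤ)),
    (sd * dd * n ^ 2 / 3) ^ 3 -
      (3 * (sd * dd * n ^ 2 / 3) ^ 2 - 2 * (sd * dd) * n * (st * ((g * y / 27 : ℕ) : ℤ))) *
        (sd * dd * n ^ 2 / 3) - sd * dd * ((g * y / 27 : ℕ) : ℤ) ^ 2)

theorem pick (x y z : ℕ) (hx : 0 < x) (hy : 0 < y) (hz : 0 < z) (hxy : Nat.Coprime x y)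
    (hxz : Nat.Coprime x z) (hyz : Nat.Coprime y z) (h : x + y = z ∨ x + z = y ∨ y + z = x) :
    ∃ (i : ℕ) (t : ℕ × ℕ), i < 3 ∧ xyOf i t = (x, y) ∧ t.1 * t.2 * (t.1 + t.2) = x * (y * z) ∧
      0 < t.1 ∧ 0 < t.2 ∧ Nat.Coprime t.1 t.2 ∧ x ≤ t.1 + t.2 ∧ y ≤ t.1 + t.2 ∧
      t.1 + t.2 ≤ x + y := by
  rcases h with h | h | h
  · refine ⟨0, (x, y), by norm_num, by simp [xyOf], ?_, hx, hy, hxy, ?_, ?_, ?_⟩
    · simp only; rw [h]; ring
    all_goals simp only; omega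
  · refine ⟨1, (x, z), by norm_num, ?_, ?_, hx, hz, hxz, ?_, ?_, ?_⟩
    · simp [xyOf, h]
    · simp only; rw [h]; ring
    all_goals simp only; omega
  · refine ⟨2, (y, z), by norm_num, ?_, ?_, hy, hz, hyz, ?_, ?_, ?_⟩
    · simp [xyOf, h]
    · simp only; rw [h]; ring
    all_goals simp only; omega

open Classical in
/-- the pairs attached to `m` -/
noncomputable def SS (κ B : ℝ) (X m : ℕ) : Finset (ℕ × ℕ) :=
  ((range (68526 * X ^ 3 + 1)) ×ˢ (range (68526 * X ^ 3 + 1))).filter (PC κ B X m)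

theorem mem_data (κ K : ℝ) (hκ : 6 ≤ κ) (hK : 0 < K) (X : ℕ) (hX : 1 ≤ X) (a b : ℤ)
    (hq : (a, b) ∈ Exc3 κ K X) (ha0 : a ≠ 0) :
    ∃ m ∈ Icc 1 (26 * X), ∃ t ∈ SS κ (max 1 (36 * 6 ^ 8 * K ^ (1 / κ))) X m,
      ∃ h ∈ ((t.1 * t.2 * (t.1 + t.2)) ^ 2).divisors, ∃ i ∈ range 3, ∃ c ∈ Icc 1 (6 ^ 8),
      ∃ dd ∈ (c * m * h * (xyOf i t).1).divisors, ∃ n ∈ (c * m * h * (xyOf i t).1).divisors,
      ∃ s ∈ ({1, -1} : Finset ℤ) ×ˢ ({1, -1} : Finset ℤ),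
        mdl s.1 s.2 (c * m * h) (xyOf i t).2 dd n = (a, b) := by
  classical
  obtain ⟨hmin, ⟨r, hr⟩, haX, hbX, hexc⟩ := hq
  simp only at hmin hr haX hbX hexc
  obtain ⟨e, he⟩ := div3_int a b r hr
  have he0 : e ≠ 0 := by
    rintro rfl
    apply ha0
    have : a ^ 2 = 0 := by linarith
    exact pow_eq_zero_iff (by norm_num) |>.mp this
  obtain ⟨sd, st, dd, n, tt, c, m, h, x, y, z, hsd, hst, hdd, hn, htt, hc, hc8, hm, hh, hx, hy, hz,
    hxy, hxz, hyz, hrel, h3e, hae, hbe, hP, hQ, hmd, hhd, hrad⟩ := data3 a b e hmin he0 he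
  obtain ⟨i, t, hi, hit, htp, ht1, ht2, htc, hxs, hys, hsxy⟩ := pick x y z hx hy hz hxy hxz hyz hrel
  set G := c * m * h with hG
  have hG0 : 0 < G := by positivity
  have hmG : m ≤ G := by
    rw [hG]
    calc m = 1 * m * 1 := by ring
      _ ≤ c * m * h := by gcongr <;> omega
  set s := t.1 + t.2 with hs
  have hs2 : 2 ≤ s := by omega
  -- casts
  have hXR : (1 : ℝ) ≤ X := by exact_mod_cast hX
  have haR : |(a : ℝ)| ≤ (X : ℝ) ^ 2 := by exact_mod_cast haX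
  have hbR : |(b : ℝ)| ≤ (X : ℝ) ^ 3 := by exact_mod_cast hbX
  have heR : 3 * (e : ℝ) ^ 4 - 6 * a * (e : ℝ) ^ 2 - 12 * b * e - (a : ℝ) ^ 2 = 0 := by
    exact_mod_cast he
  have hsdR : (sd : ℝ) = 1 ∨ (sd : ℝ) = -1 := by
    rcases hsd with h | h <;> rw [h] <;> simp
  have hstR : (st : ℝ) = 1 ∨ (st : ℝ) = -1 := by
    rcases hst with h | h <;> rw [h] <;> simp
  have h3eR : 3 * (e : ℝ) = sd * (dd : ℝ) * (n : ℝ) ^ 2 := by exact_mod_cast h3e
  have haeR : (a : ℝ) = 3 * (e : ℝ) ^ 2 - 2 * (sd * (dd : ℝ)) * n * (st * (tt : ℝ)) := by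
    exact_mod_cast hae
  have hbeR : (b : ℝ) = (e : ℝ) ^ 3 - a * e - sd * (dd : ℝ) * (tt : ℝ) ^ 2 := by
    exact_mod_cast hbe
  have hPR : 4 * (dd : ℝ) * (n : ℝ) ^ 3 = G * x := by exact_mod_cast hP
  have hQR : 27 * (tt : ℝ) = G * y := by exact_mod_cast hQ
  have hsizeX := size_X a b e dd n tt sd st X hXR haR hbR heR hsdR (Nat.cast_nonneg _)
    (Nat.cast_nonneg _) (Nat.cast_nonneg _) h3eR hbeR
  have hsize1 : (G * (x + y)) ^ 2 * dd ≤ 68526 * X ^ 3 := by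
    rw [hPR, hQR] at hsizeX
    have : ((G : ℝ) * (x + y)) ^ 2 * dd ≤ 68526 * (X : ℝ) ^ 3 := by
      calc ((G : ℝ) * (x + y)) ^ 2 * dd = (G * x + G * y) ^ 2 * dd := by ring
        _ ≤ _ := hsizeX
    exact_mod_cast this
  have hms : m ^ 3 * s ^ 2 ≤ 68526 * X ^ 3 := by
    calc m ^ 3 * s ^ 2 = (m * s) ^ 2 * m := by ring
      _ ≤ (G * (x + y)) ^ 2 * dd := by gcongr
      _ ≤ _ := hsize1
  have hm26 : m ≤ 26 * X := by
    by_contra hcon
    push Not at hcon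
    have h1 : (26 * X + 1) ^ 3 ≤ m ^ 3 := Nat.pow_le_pow_left hcon 3
    have h2 : 2 ^ 2 ≤ s ^ 2 := Nat.pow_le_pow_left hs2 2
    have h3 : (26 * X + 1) ^ 3 * 4 ≤ 68526 * X ^ 3 := by
      calc (26 * X + 1) ^ 3 * 4 ≤ m ^ 3 * s ^ 2 := Nat.mul_le_mul h1 (by linarith)
        _ ≤ _ := hms
    have h4 : 17576 * X ^ 3 ≤ (26 * X + 1) ^ 3 := by
      calc 17576 * X ^ 3 = (26 * X) ^ 3 := by ring
        _ ≤ _ := Nat.pow_le_pow_left (by omega) 3
    have h5 : 0 < X ^ 3 := by positivity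
    omega
  have hxsR : (x : ℝ) ≤ s := by exact_mod_cast hxs
  have hysR : (y : ℝ) ≤ s := by exact_mod_cast hys
  have hG0R : (0 : ℝ) < G := by exact_mod_cast hG0
  have hs0R : (0 : ℝ) < s := by exact_mod_cast (by omega : 0 < s)
  have hw1 : 4 * (dd : ℝ) * (n : ℝ) ^ 3 ≤ G * s := by
    rw [hPR]; exact mul_le_mul_of_nonneg_left hxsR hG0R.le
  have hw2 : 27 * (tt : ℝ) ≤ G * s := by
    rw [hQR]; exact mul_le_mul_of_nonneg_left hysR hG0R.le
  have hsizeH := size_H a b e dd n tt sd st (G * s) hsdR hstR (Nat.cast_nonneg _)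
    (Nat.cast_nonneg _) (Nat.cast_nonneg _) h3eR haeR hbeR hw1 hw2
  have hradR : (rad x * rad (y * z) : ℕ) * (G : ℝ) * (m : ℝ) ≤
      (36 * 6 ^ 8) * (n : ℝ) * (condS a b : ℝ) := by
    exact_mod_cast hrad
  have hcp : Nat.Coprime x (y * z) := Nat.Coprime.mul_right hxy hxz
  have hri := rad_ineq κ K (36 * 6 ^ 8) hκ hK (by norm_num) ((rad x * rad (y * z) : ℕ) : ℝ) G m n
    (condS a b) (4 * |(a : ℝ)| ^ 3 + 27 * (b : ℝ) ^ 2) dd s (Nat.cast_nonneg _)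
    (by exact_mod_cast hm) (by exact_mod_cast hmG) (by exact_mod_cast hmd) (Nat.cast_nonneg _)
    (Nat.cast_nonneg _) hs0R hradR hw1 hexc hsizeH
  have hmem : t ∈ SS κ (max 1 (36 * 6 ^ 8 * K ^ (1 / κ))) X m := by
    unfold SS
    rw [mem_filter, mem_product, mem_range, mem_range]
    have hs3 : s ≤ 68526 * X ^ 3 := by
      calc s = 1 * s := by ring
        _ ≤ m ^ 3 * s ^ 2 := Nat.mul_le_mul (Nat.one_le_pow _ _ hm) (Nat.le_self_pow (by norm_num) s)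
        _ ≤ _ := hms
    refine ⟨⟨by omega, by omega⟩, ht1, ht2, htc, hms, ?_⟩
    rw [htp, rad_mul hcp]
    refine hri.trans (mul_le_mul_of_nonneg_right (le_max_right _ _) (by positivity))
  have hgx : c * m * h * (xyOf i t).1 = 4 * dd * n ^ 3 := by
    rw [hit, hP]
  have hgx0 : c * m * h * (xyOf i t).1 ≠ 0 := by
    rw [hgx]; positivity
  refine ⟨m, mem_Icc.mpr ⟨hm, hm26⟩, t, hmem, h, ?_, i, mem_range.mpr hi, c, mem_Icc.mpr ⟨hc, hc8⟩,
    dd, ?_, n, ?_, (sd, st), ?_, ?_⟩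
  · rw [Nat.mem_divisors, htp]
    exact ⟨hhd, by positivity⟩
  · rw [Nat.mem_divisors]
    exact ⟨by rw [hgx]; exact ⟨4 * n ^ 3, by ring⟩, hgx0⟩
  · rw [Nat.mem_divisors]
    exact ⟨by rw [hgx]; exact ⟨4 * dd * n ^ 2, by ring⟩, hgx0⟩
  · rw [mem_product]
    simp only [mem_insert, mem_singleton]
    exact ⟨hsd, hst⟩
  · have k1 : c * m * h * (xyOf i t).2 / 27 = tt := by
      rw [hit, ← hG, ← hQ]
      exact Nat.mul_div_cancel_left tt (by norm_num)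
    have k2 : sd * (dd : ℤ) * (n : ℤ) ^ 2 / 3 = e := by
      rw [← h3e]
      exact Int.mul_ediv_cancel_left e (by norm_num)
    unfold mdl
    simp only
    rw [k1, k2, ← hae, ← hbe]

/-- the curves with `a = 0` -/
theorem exc_zero (κ K : ℝ) (hκ : 6 ≤ κ) (hK : 0 < K) (X : ℕ) (b : ℤ)
    (h : ((0 : ℤ), b) ∈ Exc3 κ K X) : |(b : ℝ)| ≤ 6 ^ 15 * (27 * 6 ^ 15 * K) ^ 5 := by
  classical
  obtain ⟨hmin, -, -, -, hbig⟩ := h
  simp only at hmin hbig
  have hb0 : b ≠ 0 := by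
    rintro rfl
    apply hmin.1
    unfold D
    norm_num
  set n : ℕ := b.natAbs with hn
  have hn0 : n ≠ 0 := Int.natAbs_ne_zero.mpr hb0
  have hfac : ∀ p : ℕ, p.Prime → n.factorization p ≤ 5 := by
    intro p hp
    by_contra hcon
    push Not at hcon
    have h1 : p ^ 6 ∣ n := (hp.pow_dvd_iff_le_factorization hn0).mpr hcon
    have h2 : ((p ^ 6 : ℕ) : ℤ) ∣ b := Int.natCast_dvd.mpr h1
    refine min_no 0 b hmin p hp.two_le (dvd_zero _) ?_
    exact_mod_cast h2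
  have hn5 : n ≤ rad n ^ 5 := by
    calc n = ∏ p ∈ n.primeFactors, p ^ n.factorization p :=
          (Nat.prod_factorization_pow_eq_self hn0).symm
      _ ≤ ∏ p ∈ n.primeFactors, p ^ 5 := by
          refine prod_le_prod' (fun p hp => ?_)
          have hpp := Nat.prime_of_mem_primeFactors hp
          exact Nat.pow_le_pow_right hpp.pos (hfac p hpp)
      _ = rad n ^ 5 := by unfold rad; rw [prod_pow]
  have hD : D 0 b = -27 * b ^ 2 := by unfold D; ring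
  set r5 : ℕ := ∏ p ∈ n.primeFactors.filter (fun p => 5 ≤ p), p with hr5
  have hlow := cond_lower 0 b hmin.1 (n.primeFactors.filter (fun p => 5 ≤ p)) 1 one_ne_zero (by
    intro p hp
    rw [mem_filter] at hp
    have hd : (p : ℤ) ∣ b := Int.natCast_dvd.mpr (Nat.dvd_of_mem_primeFactors hp.1)
    refine ⟨Nat.prime_of_mem_primeFactors hp.1, hp.2, dvd_zero _, ?_⟩
    rw [hD]
    exact (hd.pow (by norm_num)).mul_left _) (by
    intro p hp hp5 h1
    exact absurd (Nat.dvd_one.mp h1) hp.one_lt.ne')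
  have hfilt : (n.primeFactors.filter (fun p => 5 ≤ p)).filter (fun p => ¬ p ∣ 1) =
      n.primeFactors.filter (fun p => 5 ≤ p) := by
    apply filter_true_of_mem
    intro p hp h1
    rw [mem_filter] at hp
    have := Nat.dvd_one.mp h1
    omega
  rw [hfilt, ← hr5] at hlow
  have hrad1 : rad 1 = 1 := by simp [rad]
  rw [hrad1, one_mul] at hlow
  have hr : rad n ≤ 6 * r5 := by
    unfold rad
    rw [← prod_filter_mul_prod_filter_not n.primeFactors (fun p => 5 ≤ p), mul_comm]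
    refine Nat.mul_le_mul_right _ ?_
    have : ∏ p ∈ n.primeFactors.filter (fun p => ¬ 5 ≤ p), p ≤ ∏ p ∈ ({2, 3} : Finset ℕ), p := by
      refine prod_le_prod_of_subset_of_one_le' ?_ ?_
      · intro p hp
        rw [mem_filter] at hp
        exact small_prime p (Nat.prime_of_mem_primeFactors hp.1) hp.2
      · intro p hp _
        simp only [mem_insert, mem_singleton] at hp
        omega
    rw [prod_pair (by norm_num)] at this
    omega
  set S : ℝ := (condS 0 b : ℝ) with hS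
  have hS0 : 0 ≤ S := Nat.cast_nonneg _
  have q2 : (r5 : ℝ) * r5 ≤ 6 * S := by
    rw [hS]
    exact_mod_cast hlow
  have hn1 : (1 : ℝ) ≤ n := by exact_mod_cast Nat.pos_of_ne_zero hn0
  have hnr : (n : ℝ) ≤ (6 * (r5 : ℝ)) ^ 5 := by
    have : n ≤ (6 * r5) ^ 5 := hn5.trans (Nat.pow_le_pow_left hr 5)
    exact_mod_cast this
  have q3 : (n : ℝ) ^ 2 ≤ 6 ^ 15 * S ^ 5 := by
    calc (n : ℝ) ^ 2 ≤ ((6 * (r5 : ℝ)) ^ 5) ^ 2 := pow_le_pow_left₀ (by linarith) hnr 2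
      _ = 6 ^ 10 * ((r5 : ℝ) * r5) ^ 5 := by ring
      _ ≤ 6 ^ 10 * (6 * S) ^ 5 := by
          have : ((r5 : ℝ) * r5) ^ 5 ≤ (6 * S) ^ 5 := pow_le_pow_left₀ (by positivity) q2 5
          linarith
      _ = _ := by ring
  have hS1 : 1 ≤ S := by
    have hr51 : (1 : ℝ) ≤ r5 := by
      have : 0 < r5 := by
        rw [hr5]
        refine prod_pos (fun p hp => ?_)
        have := (mem_filter.mp hp).2
        omega
      exact_mod_cast this
    have : 0 < condS 0 b := by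
      unfold condS
      refine prod_pos (fun p hp => ?_)
      have := (mem_filter.mp hp).2
      split_ifs
      · positivity
      · omega
    rw [hS]
    exact_mod_cast this
  have hbn : (b : ℝ) ^ 2 = (n : ℝ) ^ 2 := by
    rw [hn, Nat.cast_natAbs, Int.cast_abs, sq_abs]
  have q4 : S ^ 6 ≤ K * (27 * (n : ℝ) ^ 2) := by
    calc S ^ 6 = S ^ ((6 : ℕ) : ℝ) := (Real.rpow_natCast _ _).symm
      _ ≤ S ^ κ := Real.rpow_le_rpow_of_exponent_le hS1 (by push_cast; exact hκ)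
      _ ≤ K * (4 * |((0 : ℤ) : ℝ)| ^ 3 + 27 * (b : ℝ) ^ 2) := hbig.le
      _ = K * (27 * (n : ℝ) ^ 2) := by rw [hbn]; simp
  have q5 : S ≤ 27 * 6 ^ 15 * K := by
    have h5 : 0 < S ^ 5 := by positivity
    have : S ^ 5 * S ≤ S ^ 5 * (27 * 6 ^ 15 * K) := by
      calc S ^ 5 * S = S ^ 6 := by ring
        _ ≤ K * (27 * (n : ℝ) ^ 2) := q4
        _ ≤ K * (27 * (6 ^ 15 * S ^ 5)) := by gcongr
        _ = _ := by ring
    exact le_of_mul_le_mul_left this h5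
  have hbabs : |(b : ℝ)| = n := by
    rw [hn, Nat.cast_natAbs, Int.cast_abs]
  rw [hbabs]
  calc (n : ℝ) ≤ (n : ℝ) ^ 2 := by nlinarith
    _ ≤ 6 ^ 15 * S ^ 5 := q3
    _ ≤ _ := by gcongr

end Pool.Agent.W271.Three
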