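import Pool.Agent.W271.Three.Final

/-!
# The exceptional set of (modified) Szpiro's inequality for curves with a rational 3-isogeny:
the count
-/

set_option autoImplicit false
set_option linter.unusedVariables false

namespace Pool.Agent.W271.Three

open Finset
open Pool.Agent.H328R2.ABC
open Pool.Agent.H925R.Szpiro (D IsMin condS)

theorem xyOf_le (i : ℕ) (t : ℕ × ℕ) : (xyOf i t).1 ≤ t.1 + t.2 := by
  unfold xyOf
  split_ifs <;> simp

theorem xyOf_pos (i : ℕ) (t : ℕ × ℕ) (h1 : 0 < t.1) : 0 < (xyOf i t).1 := by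
  unfold xyOf
  split_ifs <;> simp only <;> omega

/-- the models attached to `m` and a pair -/
def VV (m : ℕ) (t : ℕ × ℕ) : Finset (ℤ × ℤ) :=
  ((t.1 * t.2 * (t.1 + t.2)) ^ 2).divisors.biUnion fun h =>
    (range 3).biUnion fun i => (Icc 1 (6 ^ 8)).biUnion fun c =>
      (c * m * h * (xyOf i t).1).divisors.biUnion fun dd =>
        (c * m * h * (xyOf i t).1).divisors.biUnion fun n =>
          (({1, -1} : Finset ℤ) ×ˢ ({1, -1} : Finset ℤ)).image fun s =>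
            mdl s.1 s.2 (c * m * h) (xyOf i t).2 dd n

theorem three_count (κ K ε : ℝ) (hκ : 6 ≤ κ) (hK : 0 < K) (hε : 0 < ε) :
    ∃ C : ℝ, 0 < C ∧ ∀ X : ℕ, 1 ≤ X →
      (Exc3 κ K X).Finite ∧ ((Exc3 κ K X).ncard : ℝ) ≤ C * (X : ℝ) ^ (expo κ + ε) := by
  classical
  set B : ℝ := max 1 (36 * 6 ^ 8 * K ^ (1 / κ)) with hB
  have hB1 : 1 ≤ B := le_max_left _ _
  obtain ⟨C1, hC1, h1⟩ := pairs_C κ B (ε / 3) hκ hB1 (by positivity)
  obtain ⟨C2, hC2, h2⟩ := sum_inv_rad (ε / 3) (by positivity)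
  obtain ⟨C3, hC3, h3⟩ := Pool.Agent.H510R2.divisor_bound (ε / 135) (by positivity)
  set A : ℕ := 6 ^ 8 * 26 * 262 ^ 7 with hA
  have hA0 : 0 < A := by rw [hA]; norm_num
  set A0 : ℕ := ⌈(6 : ℝ) ^ 15 * (27 * 6 ^ 15 * K) ^ 5⌉₊ with hA0def
  set E3 : ℝ := 12 * 6 ^ 8 * (C3 * (A : ℝ) ^ (ε / 135)) ^ 3 with hE3
  have hE30 : 0 < E3 := by positivity
  refine ⟨(2 * A0 + 1) + C1 * (C2 * (26 : ℝ) ^ (ε / 3)) * E3, by positivity, fun X hX => ?_⟩
  have hX1 : (1 : ℝ) ≤ X := by exact_mod_cast hX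
  have hX0 : (0 : ℝ) < X := by linarith
  set T : ℕ := ⌊C3 * ((A : ℝ) * (X : ℝ) ^ 15) ^ (ε / 135)⌋₊ with hT
  have hdiv : ∀ N : ℕ, 1 ≤ N → N ≤ A * X ^ 15 → N.divisors.card ≤ T := by
    intro N hN1 hN2
    apply Nat.le_floor
    refine (h3 N hN1).trans ?_
    have : (N : ℝ) ≤ (A : ℝ) * (X : ℝ) ^ 15 := by exact_mod_cast hN2
    gcongr
  -- sizes
  have hsz : ∀ m ∈ Icc 1 (26 * X), ∀ t ∈ SS κ B X m, 0 < t.1 ∧ 0 < t.2 ∧
      t.1 + t.2 ≤ 262 * X ^ 2 := by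
    intro m hm t ht
    unfold SS at ht
    rw [mem_filter] at ht
    obtain ⟨q1, q2, q3, q4, q5⟩ := ht.2
    refine ⟨q1, q2, ?_⟩
    have hm1 := (mem_Icc.mp hm).1
    have e1 : (t.1 + t.2) ^ 2 ≤ (262 * X ^ 2) ^ 2 := by
      calc (t.1 + t.2) ^ 2 = 1 * (t.1 + t.2) ^ 2 := by ring
        _ ≤ m ^ 3 * (t.1 + t.2) ^ 2 := Nat.mul_le_mul_right _ (Nat.one_le_pow _ _ hm1)
        _ ≤ 68526 * X ^ 3 := q4
        _ ≤ 68644 * X ^ 4 := by
            have : X ^ 3 ≤ X ^ 4 := Nat.pow_le_pow_right hX (by norm_num)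
            omega
        _ = _ := by ring
    exact (Nat.pow_le_pow_iff_left (by norm_num)).mp e1
  have hV : ∀ m ∈ Icc 1 (26 * X), ∀ t ∈ SS κ B X m,
      (VV m t).card ≤ T * (3 * (6 ^ 8 * (T * (T * 4)))) := by
    intro m hm t ht
    obtain ⟨t1, t2, t3⟩ := hsz m hm t ht
    obtain ⟨hm1, hm2⟩ := mem_Icc.mp hm
    have hP0 : 0 < t.1 * t.2 * (t.1 + t.2) := by positivity
    have hP : t.1 * t.2 * (t.1 + t.2) ≤ (262 * X ^ 2) ^ 3 := by
      calc t.1 * t.2 * (t.1 + t.2) ≤ (262 * X ^ 2) * (262 * X ^ 2) * (262 * X ^ 2) := by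
            gcongr <;> omega
        _ = _ := by ring
    have hP2 : (t.1 * t.2 * (t.1 + t.2)) ^ 2 ≤ 262 ^ 6 * X ^ 12 := by
      calc (t.1 * t.2 * (t.1 + t.2)) ^ 2 ≤ ((262 * X ^ 2) ^ 3) ^ 2 := Nat.pow_le_pow_left hP 2
        _ = _ := by ring
    unfold VV
    refine (card_biUnion_le_card_mul _ _ (3 * (6 ^ 8 * (T * (T * 4)))) ?_).trans ?_
    · intro h hh
      have hh1 : h ≤ 262 ^ 6 * X ^ 12 :=
        (Nat.le_of_dvd (by positivity) (Nat.dvd_of_mem_divisors hh)).trans hP2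
      have hh0 : 0 < h := Nat.pos_of_mem_divisors hh
      refine (card_biUnion_le_card_mul _ _ (6 ^ 8 * (T * (T * 4))) ?_).trans (by rw [card_range])
      intro i hi
      refine (card_biUnion_le_card_mul _ _ (T * (T * 4)) ?_).trans
        (by rw [Nat.card_Icc, Nat.add_sub_cancel])
      intro c hc
      obtain ⟨hc1, hc2⟩ := mem_Icc.mp hc
      have hx := xyOf_le i t
      have hx0 := xyOf_pos i t t1
      have hN1 : 1 ≤ c * m * h * (xyOf i t).1 := by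
        have : 0 < c * m * h * (xyOf i t).1 := by positivity
        omega
      have hN2 : c * m * h * (xyOf i t).1 ≤ A * X ^ 15 := by
        calc c * m * h * (xyOf i t).1 ≤ 6 ^ 8 * (26 * X) * (262 ^ 6 * X ^ 12) * (262 * X ^ 2) := by
              gcongr
              exact hx.trans t3
          _ = A * X ^ 15 := by rw [hA]; ring
      have hd := hdiv _ hN1 hN2
      refine (card_biUnion_le_card_mul _ _ (T * 4) ?_).trans (Nat.mul_le_mul_right _ hd)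
      intro dd hdd
      refine (card_biUnion_le_card_mul _ _ 4 ?_).trans (Nat.mul_le_mul_right _ hd)
      intro n hn
      refine card_image_le.trans ?_
      rw [card_product]
      have : ({1, -1} : Finset ℤ).card ≤ 2 := card_le_two
      nlinarith
    · apply Nat.mul_le_mul_right
      apply hdiv
      · have : 0 < (t.1 * t.2 * (t.1 + t.2)) ^ 2 := by positivity
        omega
      · refine hP2.trans ?_
        have e1 : X ^ 12 ≤ X ^ 15 := Nat.pow_le_pow_right hX (by norm_num)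
        have e2 : 262 ^ 6 ≤ A := by rw [hA]; norm_num
        exact Nat.mul_le_mul e2 e1
  set W : Finset (ℤ × ℤ) := (Icc 1 (26 * X)).biUnion fun m => (SS κ B X m).biUnion fun t => VV m t
    with hW
  set Q : ℕ := T * (3 * (6 ^ 8 * (T * (T * 4)))) with hQ
  have hWcard : W.card ≤ ∑ m ∈ Icc 1 (26 * X), (SS κ B X m).card * Q := by
    refine card_biUnion_le.trans (sum_le_sum (fun m hm => ?_))
    exact card_biUnion_le_card_mul _ _ _ (fun t ht => hV m hm t ht)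
  set Z : Finset (ℤ × ℤ) := ({0} : Finset ℤ) ×ˢ (Icc (-(A0 : ℤ)) A0) with hZ
  have hZcard : Z.card = 2 * A0 + 1 := by
    rw [hZ, card_product, card_singleton, one_mul, Int.card_Icc]
    omega
  have hsub : Exc3 κ K X ⊆ ((Z ∪ W : Finset (ℤ × ℤ)) : Set (ℤ × ℤ)) := by
    rintro ⟨a, b⟩ hq
    rw [mem_coe, mem_union]
    by_cases ha0 : a = 0
    · left
      subst ha0
      have := exc_zero κ K hκ hK X b hq
      have h4 : |(b : ℝ)| ≤ A0 := this.trans (Nat.le_ceil _)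
      have h5 : |b| ≤ (A0 : ℤ) := by exact_mod_cast h4
      rw [hZ, mem_product, mem_Icc, mem_singleton]
      exact ⟨rfl, abs_le.mp h5⟩
    · right
      obtain ⟨m, hm, t, ht, h, hh, i, hi, c, hc, dd, hdd, n, hn, s, hs, he⟩ :=
        mem_data κ K hκ hK X hX a b hq ha0
      rw [hW, mem_biUnion]
      refine ⟨m, hm, ?_⟩
      rw [mem_biUnion]
      refine ⟨t, ht, ?_⟩
      unfold VV
      rw [mem_biUnion]
      refine ⟨h, hh, ?_⟩
      rw [mem_biUnion]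
      refine ⟨i, hi, ?_⟩
      rw [mem_biUnion]
      refine ⟨c, hc, ?_⟩
      rw [mem_biUnion]
      refine ⟨dd, hdd, ?_⟩
      rw [mem_biUnion]
      refine ⟨n, hn, ?_⟩
      rw [mem_image]
      exact ⟨s, hs, he⟩
  have hfin : (Exc3 κ K X).Finite := Set.Finite.subset (Finset.finite_toSet _) hsub
  refine ⟨hfin, ?_⟩
  have c1 : (Exc3 κ K X).ncard ≤ (Z ∪ W).card := by
    rw [← Set.ncard_coe_finset]
    exact Set.ncard_le_ncard hsub (Finset.finite_toSet _)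
  have c2 : (Z ∪ W).card ≤ (2 * A0 + 1) + ∑ m ∈ Icc 1 (26 * X), (SS κ B X m).card * Q := by
    refine (card_union_le _ _).trans ?_
    rw [hZcard]
    exact Nat.add_le_add_left hWcard _
  have c3 : ((Exc3 κ K X).ncard : ℝ) ≤
      (2 * A0 + 1) + (∑ m ∈ Icc 1 (26 * X), ((SS κ B X m).card : ℝ)) * Q := by
    have := c1.trans c2
    have h' : ((Exc3 κ K X).ncard : ℝ) ≤
      (((2 * A0 + 1) + ∑ m ∈ Icc 1 (26 * X), (SS κ B X m).card * Q : ℕ) : ℝ) := by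
      exact_mod_cast this
    refine h'.trans (le_of_eq ?_)
    push_cast
    rw [sum_mul]
  have c4 : (Q : ℝ) ≤ E3 * (X : ℝ) ^ (ε / 3) := by
    have hTle : (T : ℝ) ≤ C3 * (A : ℝ) ^ (ε / 135) * (X : ℝ) ^ (15 * (ε / 135)) := by
      rw [hT]
      refine (Nat.floor_le (by positivity)).trans (le_of_eq ?_)
      rw [Real.mul_rpow (by positivity) (by positivity), ← Real.rpow_natCast (X : ℝ) 15,
        ← Real.rpow_mul hX0.le]
      push_cast
      ring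
    have hT0 : (0 : ℝ) ≤ T := Nat.cast_nonneg _
    calc (Q : ℝ) = 12 * 6 ^ 8 * (T : ℝ) ^ 3 := by rw [hQ]; push_cast; ring
      _ ≤ 12 * 6 ^ 8 * (C3 * (A : ℝ) ^ (ε / 135) * (X : ℝ) ^ (15 * (ε / 135))) ^ 3 := by gcongr
      _ = E3 * ((X : ℝ) ^ (15 * (ε / 135))) ^ 3 := by rw [hE3]; ring
      _ = E3 * (X : ℝ) ^ (ε / 3) := by
          rw [← Real.rpow_natCast _ 3, ← Real.rpow_mul hX0.le]
          congr 2
          push_cast
          ring
  have c5 : ∑ m ∈ Icc 1 (26 * X), ((SS κ B X m).card : ℝ) ≤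
      C1 * (X : ℝ) ^ (expo κ + ε / 3) * (C2 * (26 : ℝ) ^ (ε / 3) * (X : ℝ) ^ (ε / 3)) := by
    have d1 : ∀ m ∈ Icc 1 (26 * X), ((SS κ B X m).card : ℝ) ≤
        C1 * (X : ℝ) ^ (expo κ + ε / 3) * (1 / (rad m : ℝ)) := by
      intro m hm
      obtain ⟨hm1, hm2⟩ := mem_Icc.mp hm
      refine (h1 X hX m hm1 (SS κ B X m) (fun t ht => ?_)).trans ?_
      · unfold SS at ht
        exact (mem_filter.mp ht).2
      · have hr1 : (0 : ℝ) < rad m := by exact_mod_cast rad_pos _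
        have l1 : (1 : ℝ) / m ≤ 1 / rad m :=
          one_div_le_one_div_of_le hr1 (by exact_mod_cast rad_le (by omega))
        gcongr
    have d2 := h2 (26 * X) (by omega)
    have d3 : (((26 * X : ℕ) : ℝ)) ^ (ε / 3) = (26 : ℝ) ^ (ε / 3) * (X : ℝ) ^ (ε / 3) := by
      push_cast
      rw [Real.mul_rpow (by norm_num) hX0.le]
    calc ∑ m ∈ Icc 1 (26 * X), ((SS κ B X m).card : ℝ)
        ≤ ∑ m ∈ Icc 1 (26 * X), C1 * (X : ℝ) ^ (expo κ + ε / 3) * (1 / (rad m : ℝ)) :=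
          sum_le_sum d1
      _ = C1 * (X : ℝ) ^ (expo κ + ε / 3) * ∑ m ∈ Icc 1 (26 * X), (1 / (rad m : ℝ)) := by
          rw [mul_sum]
      _ ≤ C1 * (X : ℝ) ^ (expo κ + ε / 3) * (C2 * ((26 * X : ℕ) : ℝ) ^ (ε / 3)) := by gcongr
      _ = _ := by rw [d3]; ring
  have hexp : (X : ℝ) ^ (expo κ + ε / 3) * (X : ℝ) ^ (ε / 3) * (X : ℝ) ^ (ε / 3) =
      (X : ℝ) ^ (expo κ + ε) := by
    rw [← Real.rpow_add hX0, ← Real.rpow_add hX0]
    congr 1
    ring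
  have hone : (1 : ℝ) ≤ (X : ℝ) ^ (expo κ + ε) :=
    Real.one_le_rpow hX1 (by have := expo_pos κ hκ; linarith)
  have hA00 : (0 : ℝ) ≤ 2 * A0 + 1 := by positivity
  have hS0 : 0 ≤ ∑ m ∈ Icc 1 (26 * X), ((SS κ B X m).card : ℝ) :=
    sum_nonneg (fun _ _ => Nat.cast_nonneg _)
  calc ((Exc3 κ K X).ncard : ℝ) ≤
        (2 * A0 + 1) + (∑ m ∈ Icc 1 (26 * X), ((SS κ B X m).card : ℝ)) * Q := c3
    _ ≤ (2 * A0 + 1) * (X : ℝ) ^ (expo κ + ε) +
        (C1 * (X : ℝ) ^ (expo κ + ε / 3) * (C2 * (26 : ℝ) ^ (ε / 3) * (X : ℝ) ^ (ε / 3))) *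
          (E3 * (X : ℝ) ^ (ε / 3)) := by
        have := le_mul_of_one_le_right hA00 hone
        have : (∑ m ∈ Icc 1 (26 * X), ((SS κ B X m).card : ℝ)) * Q ≤
          (C1 * (X : ℝ) ^ (expo κ + ε / 3) * (C2 * (26 : ℝ) ^ (ε / 3) * (X : ℝ) ^ (ε / 3))) *
          (E3 * (X : ℝ) ^ (ε / 3)) := mul_le_mul c5 c4 (Nat.cast_nonneg _) (by positivity)
        linarith
    _ = (2 * A0 + 1) * (X : ℝ) ^ (expo κ + ε) + C1 * (C2 * (26 : ℝ) ^ (ε / 3)) * E3 *
        ((X : ℝ) ^ (expo κ + ε / 3) * (X : ℝ) ^ (ε / 3) * (X : ℝ) ^ (ε / 3)) := by ring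
    _ = _ := by rw [hexp]; ring

end Pool.Agent.W271.Three
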