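import Pool.Agent.W271.Three.Final

/-!
# The 3-division polynomial of a general Weierstrass equation
-/

set_option autoImplicit false
set_option linter.unusedVariables false

namespace Pool.Agent.W271.Three

/-- a rational 3-isogeny: the 3-division polynomial has a rational root -/
def ThreeT (W : WeierstrassCurve ℤ) : Prop :=
  ∃ r : ℚ, 3 * r ^ 4 + W.b₂ * r ^ 3 + 3 * W.b₄ * r ^ 2 + 3 * W.b₆ * r + W.b₈ = 0

theorem threeT_root (W : WeierstrassCurve ℤ) (u : ℚ) (a b : ℤ) (hu : u ≠ 0)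
    (ha : (a : ℚ) = u ^ 4 * (27 * W.c₄ : ℤ)) (hb : (b : ℚ) = u ^ 6 * (54 * W.c₆ : ℤ))
    (hT : ThreeT W) : HasThree a b := by
  obtain ⟨r, hr⟩ := hT
  refine ⟨u ^ 2 * (36 * r + 3 * W.b₂), ?_⟩
  have hc4 : ((W.c₄ : ℤ) : ℚ) = (W.b₂ : ℚ) ^ 2 - 24 * W.b₄ := by
    unfold WeierstrassCurve.c₄
    push_cast
    ring
  have hc6 : ((W.c₆ : ℤ) : ℚ) = -(W.b₂ : ℚ) ^ 3 + 36 * W.b₂ * W.b₄ - 216 * W.b₆ := by
    unfold WeierstrassCurve.c₆
    push_cast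
    ring
  have hb8 : 4 * ((W.b₈ : ℤ) : ℚ) = (W.b₂ : ℚ) * W.b₆ - (W.b₄ : ℚ) ^ 2 := by
    exact_mod_cast W.b_relation
  rw [ha, hb]
  push_cast
  rw [hc4, hc6]
  linear_combination (1679616 * u ^ 8) * hr - (419904 * u ^ 8) * hb8

end Pool.Agent.W271.Three
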