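import Pool.Agent.H925R.Two.Data

/-!
# Minimal models with a rational 3-isogeny: the parametrisation

`y² = x³ - a x - b` with a rational root `e` of the 3-division polynomial:
`3 e = d n²`, `3 e² - a = 2 d n t`, `e³ - a e - b = d t²`, `d` squarefree,
`D = d² t³ (4 d n³ - 27 t)`.
-/

set_option autoImplicit false
set_option linter.unusedVariables false

namespace Pool.Agent.W271.Three

open Finset
open Pool.Agent.H328R2.ABC
open Pool.Agent.H925R.Szpiro (D IsMin condS)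

theorem quartic_int (c2 c1 c0 : ℤ) (r : ℚ) (h : r ^ 4 + c2 * r ^ 2 + c1 * r + c0 = 0) :
    ∃ z : ℤ, (z : ℚ) = r := by
  have hm : (Polynomial.X ^ 4 + Polynomial.C c2 * Polynomial.X ^ 2 + Polynomial.C c1 * Polynomial.X
      + Polynomial.C c0 : Polynomial ℤ).Monic := by
    monicity!
  have := isInteger_of_is_root_of_monic hm (r := r) (by simpa using h)
  obtain ⟨z, hz⟩ := this
  exact ⟨z, by simpa using hz⟩

/-- a rational root of the 3-division polynomial is an integer -/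
theorem div3_int (a b : ℤ) (r : ℚ) (hr : 3 * r ^ 4 - 6 * a * r ^ 2 - 12 * b * r - a ^ 2 = 0) :
    ∃ e : ℤ, 3 * e ^ 4 - 6 * a * e ^ 2 - 12 * b * e - a ^ 2 = 0 := by
  obtain ⟨s, hs⟩ := quartic_int (-18 * a) (-108 * b) (-27 * a ^ 2) (3 * r) (by
    push_cast; linear_combination 27 * hr)
  have hsz : s ^ 4 - 18 * a * s ^ 2 - 108 * b * s - 27 * a ^ 2 = 0 := by
    have : (s : ℚ) ^ 4 - 18 * a * s ^ 2 - 108 * b * s - 27 * a ^ 2 = 0 := by
      rw [hs]; linear_combination 27 * hr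
    exact_mod_cast this
  have h3 : (3 : ℤ) ∣ s := by
    have : (3 : ℤ) ∣ s ^ 4 := ⟨6 * a * s ^ 2 + 36 * b * s + 9 * a ^ 2, by linarith⟩
    exact Int.prime_three.dvd_of_dvd_pow this
  obtain ⟨e, he⟩ := h3
  refine ⟨e, ?_⟩
  rw [he] at hsz
  have : 27 * (3 * e ^ 4 - 6 * a * e ^ 2 - 12 * b * e - a ^ 2) = 0 := by
    linear_combination hsz
  omega

/-- `A F = m²` with common squarefree part -/
theorem sqf_split (A F : ℤ) (hA : A ≠ 0) (hF : F ≠ 0) (m : ℤ) (h : m ^ 2 = A * F) :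
    ∃ d n t : ℤ, Squarefree d ∧ d ≠ 0 ∧ 0 < n ∧ t ≠ 0 ∧ A = d * n ^ 2 ∧ F = d * t ^ 2 ∧
      m = d * n * t := by
  obtain ⟨a, b, hab, hsq⟩ := Nat.sq_mul_squarefree A.natAbs
  have hAn : A.natAbs ≠ 0 := Int.natAbs_ne_zero.mpr hA
  have hb0 : b ≠ 0 := by
    rintro rfl
    apply hAn
    rw [← hab]; simp
  have ha0 : a ≠ 0 := hsq.ne_zero
  obtain ⟨s, hs, hAs⟩ : ∃ s : ℤ, (s = 1 ∨ s = -1) ∧ A = s * (A.natAbs : ℤ) := by
    rcases le_total 0 A with h0 | h0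
    · exact ⟨1, Or.inl rfl, by rw [Int.natCast_natAbs, abs_of_nonneg h0]; ring⟩
    · exact ⟨-1, Or.inr rfl, by rw [Int.natCast_natAbs, abs_of_nonpos h0]; ring⟩
  have hd : Squarefree (s * (a : ℤ)) := by
    rw [← Int.squarefree_natAbs, Int.natAbs_mul, Int.natAbs_natCast]
    rcases hs with h | h <;> simpa [h] using hsq
  have hd0 : s * (a : ℤ) ≠ 0 := hd.ne_zero
  have hbz : (b : ℤ) ≠ 0 := by exact_mod_cast hb0
  have hA' : A = (s * a) * (b : ℤ) ^ 2 := by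
    rw [hAs, ← hab]; push_cast; ring
  have hbm : (b : ℤ) ∣ m := by
    rw [← Int.pow_dvd_pow_iff (n := 2) (by norm_num), h, hA']
    exact ⟨s * a * F, by ring⟩
  obtain ⟨m', hm'⟩ := hbm
  have h1 : m' ^ 2 = (s * a) * F := by
    have : (b : ℤ) ^ 2 * m' ^ 2 = (b : ℤ) ^ 2 * ((s * a) * F) := by
      have h2 := h
      rw [hm', hA'] at h2
      linear_combination h2
    exact mul_left_cancel₀ (pow_ne_zero 2 hbz) this
  have hdm : (s * (a : ℤ)) ∣ m' := by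
    rw [← hd.dvd_pow_iff_dvd (n := 2) (by norm_num), h1]
    exact dvd_mul_right _ _
  obtain ⟨t, ht⟩ := hdm
  have hF' : F = (s * a) * t ^ 2 := by
    have : (s * (a : ℤ)) * F = (s * a) * ((s * a) * t ^ 2) := by
      rw [← h1, ht]; ring
    exact mul_left_cancel₀ hd0 this
  refine ⟨s * a, b, t, hd, hd0, by positivity, ?_, hA', hF', by rw [hm', ht]; ring⟩
  rintro rfl
  apply hF
  rw [hF']; ring

/-- the parametrisation -/
theorem param (a b e : ℤ) (hD : D a b ≠ 0) (he0 : e ≠ 0)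
    (he : 3 * e ^ 4 - 6 * a * e ^ 2 - 12 * b * e - a ^ 2 = 0) :
    ∃ d n t : ℤ, Squarefree d ∧ d ≠ 0 ∧ 0 < n ∧ t ≠ 0 ∧ 3 * e = d * n ^ 2 ∧
      a = 3 * e ^ 2 - 2 * d * n * t ∧ b = e ^ 3 - a * e - d * t ^ 2 ∧
      D a b = d ^ 2 * t ^ 3 * (4 * d * n ^ 3 - 27 * t) ∧ 4 * d * n ^ 3 - 27 * t ≠ 0 := by
  set F := e ^ 3 - a * e - b with hF
  have hB : (3 * e ^ 2 - a) ^ 2 = 4 * (3 * e * F) := by
    rw [hF]; linear_combination (-1) * he
  have hDF : D a b = F * (2 * (3 * e) * (3 * e ^ 2 - a) - 27 * F) := by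
    have hb : b = e ^ 3 - a * e - F := by rw [hF]; ring
    have : D a b - F * (2 * (3 * e) * (3 * e ^ 2 - a) - 27 * F) =
        (3 * e ^ 2 - 4 * a) * (4 * (3 * e * F) - (3 * e ^ 2 - a) ^ 2) := by
      unfold D
      rw [hb]
      ring
    rw [hB] at this
    linear_combination this
  have hF0 : F ≠ 0 := by
    intro h
    apply hD
    rw [hDF, h]; ring
  have h2 : (2 : ℤ) ∣ 3 * e ^ 2 - a := by
    have : (2 : ℤ) ∣ (3 * e ^ 2 - a) ^ 2 := ⟨2 * (3 * e * F), by rw [hB]; ring⟩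
    exact Int.prime_two.dvd_of_dvd_pow this
  obtain ⟨m, hm⟩ := h2
  have hmAF : m ^ 2 = (3 * e) * F := by
    rw [hm] at hB
    have : 4 * m ^ 2 = 4 * ((3 * e) * F) := by linear_combination hB
    omega
  obtain ⟨d, n, t, h1, h3, h4, h5, h6, h7, h8⟩ :=
    sqf_split (3 * e) F (by omega) hF0 m hmAF
  have hDd : D a b = d ^ 2 * t ^ 3 * (4 * d * n ^ 3 - 27 * t) := by
    rw [hDF, hm, h8, h6, h7]; ring
  refine ⟨d, n, t, h1, h3, h4, h5, h6, ?_, ?_, hDd, ?_⟩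
  · rw [h8] at hm; linear_combination (-1) * hm
  · rw [← h7, hF]; ring
  · intro h
    apply hD
    rw [hDd, h]; ring

/-- in a minimal model `m⁴ ∣ a` and `m⁶ ∣ b` is impossible for `m ≥ 2` -/
theorem min_no (a b : ℤ) (hmin : IsMin a b) (m : ℕ) (hm : 2 ≤ m)
    (h1 : (m : ℤ) ^ 4 ∣ a) (h2 : (m : ℤ) ^ 6 ∣ b) : False := by
  obtain ⟨k, hk⟩ := h1
  obtain ⟨l, hl⟩ := h2
  have hm0 : (m : ℚ) ≠ 0 := by exact_mod_cast (by omega : m ≠ 0)
  have := hmin.2 ((m : ℚ)⁻¹) k l (inv_ne_zero hm0)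
    (by rw [hk]; push_cast; field_simp) (by rw [hl]; push_cast; field_simp)
  have hD : D a b = (m : ℤ) ^ 12 * D k l := by
    unfold D
    rw [hk, hl]
    ring
  have hD0 : D k l ≠ 0 := by
    intro h
    apply hmin.1
    rw [hD, h, mul_zero]
  have hpos : 0 < |D k l| := abs_pos.mpr hD0
  rw [hD, abs_mul, abs_of_nonneg (by positivity : (0 : ℤ) ≤ (m : ℤ) ^ 12)] at this
  have hm12 : (2 : ℤ) ≤ (m : ℤ) ^ 12 := by
    have h2m : (2 : ℤ) ≤ m := by exact_mod_cast hm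
    calc (2 : ℤ) ≤ m := h2m
      _ = (m : ℤ) ^ 1 := (pow_one _).symm
      _ ≤ (m : ℤ) ^ 12 := pow_le_pow_right₀ (by linarith) (by norm_num)
  nlinarith

/-- `p ∣ n`, `p³ ∣ t` is impossible for `p ≠ 3` -/
theorem min_p (a b e d n t : ℤ) (hmin : IsMin a b) (h1 : 3 * e = d * n ^ 2)
    (h2 : a = 3 * e ^ 2 - 2 * d * n * t) (h3 : b = e ^ 3 - a * e - d * t ^ 2) (p : ℕ)
    (hp : p.Prime) (hp3 : p ≠ 3) (hn : (p : ℤ) ∣ n) (ht : (p : ℤ) ^ 3 ∣ t) : False := by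
  obtain ⟨n', rfl⟩ := hn
  obtain ⟨t', rfl⟩ := ht
  have he : (p : ℤ) ^ 2 ∣ e :=
    Pool.Agent.H925R.Two.dvd_of_dvd_three_mul hp hp3 ⟨d * n' ^ 2, by rw [h1]; ring⟩
  obtain ⟨e', rfl⟩ := he
  have ha : (p : ℤ) ^ 4 ∣ a := ⟨3 * e' ^ 2 - 2 * d * n' * t', by rw [h2]; ring⟩
  obtain ⟨a', rfl⟩ := ha
  have hb : (p : ℤ) ^ 6 ∣ b := ⟨e' ^ 3 - a' * e' - d * t' ^ 2, by rw [h3]; ring⟩
  exact min_no _ _ hmin p hp.two_le ⟨a', rfl⟩ hb

/-- `9 ∣ n`, `3⁶ ∣ t` is impossible -/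
theorem min_3 (a b e d n t : ℤ) (hmin : IsMin a b) (h1 : 3 * e = d * n ^ 2)
    (h2 : a = 3 * e ^ 2 - 2 * d * n * t) (h3 : b = e ^ 3 - a * e - d * t ^ 2)
    (hn : (9 : ℤ) ∣ n) (ht : (729 : ℤ) ∣ t) : False := by
  obtain ⟨n', rfl⟩ := hn
  obtain ⟨t', rfl⟩ := ht
  have he : (27 : ℤ) ∣ e := ⟨d * n' ^ 2, by linarith⟩
  obtain ⟨e', rfl⟩ := he
  have ha : (81 : ℤ) ∣ a := ⟨27 * e' ^ 2 - 162 * d * n' * t', by rw [h2]; ring⟩
  obtain ⟨a', rfl⟩ := ha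
  have hb : (729 : ℤ) ∣ b := ⟨27 * e' ^ 3 - 3 * a' * e' - 729 * d * t' ^ 2, by rw [h3]; ring⟩
  exact min_no _ _ hmin 3 (by norm_num) (by norm_num) (by norm_num; exact hb)

end Pool.Agent.W271.Three
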