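import Pool.Agent.W271.Three.Main
import Pool.Agent.W271.Three.ThreeT
import Pool.Agent.H925R.Szpiro.Semi

/-!
# Semistable curves with a rational 3-isogeny
-/

set_option autoImplicit false
set_option linter.unusedVariables false

namespace Pool.Agent.W271.Three

open Finset
open Pool.Agent.H328R2.ABC
open Pool.Agent.H925R.Szpiro (D)
open Pool.Agent.H925R.Two (small_prime dvd_of_dvd_three_mul)

theorem D_W (W : WeierstrassCurve ℤ) : D (27 * W.c₄) (54 * W.c₆) = 136048896 * W.Δ := by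
  have h := W.c_relation
  unfold D
  linear_combination (-78732) * h

theorem prime_dvd_of_const {p : ℕ} (hp : p.Prime) (hp5 : 5 ≤ p) {k : ℤ}
    (h : (p : ℤ) ∣ 136048896 * k) : (p : ℤ) ∣ k := by
  have hc2 : Nat.Coprime p 2 := (Nat.coprime_primes hp Nat.prime_two).mpr (by omega)
  have hc3 : Nat.Coprime p 3 := (Nat.coprime_primes hp Nat.prime_three).mpr (by omega)
  have hc : Nat.Coprime p 136048896 := by
    have : (136048896 : ℕ) = 2 ^ 8 * 3 ^ 12 := by norm_num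
    rw [this]
    exact (hc2.pow_right 8).mul_right (hc3.pow_right 12)
  have : IsCoprime (p : ℤ) 136048896 := by exact_mod_cast Nat.isCoprime_iff_coprime.mpr hc
  exact this.dvd_of_dvd_mul_left h

theorem prime_dvd_of_27 {p : ℕ} (hp : p.Prime) (hp5 : 5 ≤ p) {k : ℤ}
    (h : (p : ℤ) ∣ 27 * k) : (p : ℤ) ∣ k := by
  have hc3 : Nat.Coprime p 3 := (Nat.coprime_primes hp Nat.prime_three).mpr (by omega)
  have hc : Nat.Coprime p 27 := by
    have : (27 : ℕ) = 3 ^ 3 := by norm_num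
    rw [this]
    exact hc3.pow_right 3
  have : IsCoprime (p : ℤ) 27 := by exact_mod_cast Nat.isCoprime_iff_coprime.mpr hc
  exact this.dvd_of_dvd_mul_left h

theorem not_both (W : WeierstrassCurve ℤ) (hco : IsCoprime W.c₄ W.Δ) (p : ℕ) (hp : 2 ≤ p)
    (h1 : (p : ℤ) ∣ W.c₄) (h2 : (p : ℤ) ∣ W.Δ) : False := by
  have := hco.isUnit_of_dvd' h1 h2
  rw [Int.isUnit_iff] at this
  omega

theorem semi_two (W : WeierstrassCurve ℤ) (hco : IsCoprime W.c₄ W.Δ) (e d n t : ℤ)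
    (h1 : 3 * e = d * n ^ 2) (h2 : 27 * W.c₄ = 3 * e ^ 2 - 2 * d * n * t)
    (h3 : 54 * W.c₆ = e ^ 3 - (27 * W.c₄) * e - d * t ^ 2) (hn : (2 : ℤ) ∣ n)
    (ht : (8 : ℤ) ∣ t) : False := by
  obtain ⟨n', rfl⟩ := hn
  obtain ⟨t', rfl⟩ := ht
  have he : (4 : ℤ) ∣ e := by
    have : (4 : ℤ) ∣ 3 * e := ⟨d * n' ^ 2, by rw [h1]; ring⟩
    omega
  obtain ⟨e', rfl⟩ := he
  have hc4 : (16 : ℤ) ∣ W.c₄ := by
    have : (16 : ℤ) ∣ 27 * W.c₄ := ⟨3 * e' ^ 2 - 2 * d * n' * t', by rw [h2]; ring⟩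
    omega
  obtain ⟨k, hk⟩ := hc4
  have hc6 : (32 : ℤ) ∣ W.c₆ := by
    have : (64 : ℤ) ∣ 54 * W.c₆ := ⟨e' ^ 3 - 27 * k * e' - d * t' ^ 2, by rw [h3, hk]; ring⟩
    omega
  obtain ⟨l, hl⟩ := hc6
  have hrel := W.c_relation
  rw [hk, hl] at hrel
  have hD : (2 : ℤ) ∣ W.Δ := by
    have : 27 * W.Δ = 2 * (32 * k ^ 3 - 8 * l ^ 2) := by
      have : 64 * (27 * W.Δ) = 64 * (2 * (32 * k ^ 3 - 8 * l ^ 2)) := by
        linear_combination hrel
      exact mul_left_cancel₀ (by norm_num) this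
    omega
  exact not_both W hco 2 (le_refl _) (by rw [hk]; exact ⟨8 * k, by push_cast; ring⟩)
    (by exact_mod_cast hD)

theorem semi_three (W : WeierstrassCurve ℤ) (hco : IsCoprime W.c₄ W.Δ) (e d n t : ℤ)
    (h1 : 3 * e = d * n ^ 2) (h2 : 27 * W.c₄ = 3 * e ^ 2 - 2 * d * n * t)
    (h3 : 54 * W.c₆ = e ^ 3 - (27 * W.c₄) * e - d * t ^ 2) (hn : (9 : ℤ) ∣ n)
    (ht : (729 : ℤ) ∣ t) : False := by
  obtain ⟨n', rfl⟩ := hn
  obtain ⟨t', rfl⟩ := ht
  have he : (27 : ℤ) ∣ e := ⟨d * n' ^ 2, by linarith⟩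
  obtain ⟨e', rfl⟩ := he
  have hc4 : (81 : ℤ) ∣ W.c₄ := by
    refine ⟨e' ^ 2 - 6 * d * n' * t', ?_⟩
    have : 27 * W.c₄ = 27 * (81 * (e' ^ 2 - 6 * d * n' * t')) := by rw [h2]; ring
    exact mul_left_cancel₀ (by norm_num) this
  obtain ⟨k, hk⟩ := hc4
  have hc6 : (729 : ℤ) ∣ W.c₆ := by
    have : (729 : ℤ) ∣ 2 * W.c₆ := by
      refine ⟨e' ^ 3 - 3 * k * e' - 27 * d * t' ^ 2, ?_⟩
      have : 27 * (2 * W.c₆) = 27 * (729 * (e' ^ 3 - 3 * k * e' - 27 * d * t' ^ 2)) := by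
        have e0 : 27 * (2 * W.c₆) = 54 * W.c₆ := by ring
        rw [e0, h3, hk]; ring
      exact mul_left_cancel₀ (by norm_num) this
    omega
  obtain ⟨l, hl⟩ := hc6
  have hrel := W.c_relation
  rw [hk, hl] at hrel
  have hD : (3 : ℤ) ∣ W.Δ := by
    have : 64 * W.Δ = 3 * (6561 * k ^ 3 - 6561 * l ^ 2) := by
      have : 27 * (64 * W.Δ) = 27 * (3 * (6561 * k ^ 3 - 6561 * l ^ 2)) := by
        linear_combination hrel
      exact mul_left_cancel₀ (by norm_num) this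
    omega
  exact not_both W hco 3 (by norm_num) (by rw [hk]; exact ⟨27 * k, by push_cast; ring⟩)
    (by exact_mod_cast hD)

theorem data_semi (W : WeierstrassCurve ℤ) (hΔ : W.Δ ≠ 0) (hco : IsCoprime W.c₄ W.Δ) (e : ℤ)
    (he0 : e ≠ 0) (he : 3 * e ^ 4 - 6 * (27 * W.c₄) * e ^ 2 - 12 * (54 * W.c₆) * e -
      (27 * W.c₄) ^ 2 = 0) :
    ∃ (sd st : ℤ) (dd n tt c x y z : ℕ), (sd = 1 ∨ sd = -1) ∧ (st = 1 ∨ st = -1) ∧
      0 < dd ∧ 0 < n ∧ 0 < tt ∧ 0 < c ∧ c ≤ 6 ^ 8 ∧ 0 < x ∧ 0 < y ∧ 0 < z ∧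
      Nat.Coprime x y ∧ Nat.Coprime x z ∧ Nat.Coprime y z ∧
      (x + y = z ∨ x + z = y ∨ y + z = x) ∧
      3 * e = sd * dd * n ^ 2 ∧ 27 * W.c₄ = 3 * e ^ 2 - 2 * (sd * dd) * n * (st * tt) ∧
      54 * W.c₆ = e ^ 3 - (27 * W.c₄) * e - sd * dd * tt ^ 2 ∧
      4 * dd * n ^ 3 = c * x ∧ 27 * tt = c * y ∧
      rad x * rad (y * z) * c ≤ 36 * 6 ^ 8 * n * Pool.Agent.H925R.Szpiro.cond W := by
  classical
  have hDne : D (27 * W.c₄) (54 * W.c₆) ≠ 0 := by
    rw [D_W]
    exact mul_ne_zero (by norm_num) hΔ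
  obtain ⟨d, n, t, hsq, hd0, hn0, ht0, h3e, ha, hb, hDd, hne⟩ :=
    param (27 * W.c₄) (54 * W.c₆) e hDne he0 he
  rw [D_W] at hDd
  have hU : 4 * d * n ^ 3 ≠ 0 := by positivity
  have hV : 27 * t ≠ 0 := by positivity
  obtain ⟨G, x, y, z, hG, hx, hy, hz, hxy, hxz, hyz, hrel, hUG, hVG, hWG⟩ :=
    triple (4 * d * n ^ 3) (27 * t) hU hV hne
  set dd := d.natAbs with hdd
  set nn := n.natAbs with hnn
  set tt := t.natAbs with htt
  have hdd0 : dd ≠ 0 := Int.natAbs_ne_zero.mpr hd0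
  have hnn0 : nn ≠ 0 := Int.natAbs_ne_zero.mpr hn0.ne'
  have htt0 : tt ≠ 0 := Int.natAbs_ne_zero.mpr ht0
  have hP : 4 * dd * nn ^ 3 = G * x := by
    rw [← hUG, Int.natAbs_mul, Int.natAbs_mul, Int.natAbs_pow]; rfl
  have hQ : 27 * tt = G * y := by
    rw [← hVG, Int.natAbs_mul]; rfl
  have hsqd : Squarefree dd := by rw [hdd, Int.squarefree_natAbs]; exact hsq
  have hcn : ∀ {p k : ℕ}, p ^ k ∣ nn → (p : ℤ) ^ k ∣ n := by
    intro p k h
    have : ((p ^ k : ℕ) : ℤ) ∣ n := Int.natCast_dvd.mpr h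
    exact_mod_cast this
  have hct : ∀ {p k : ℕ}, p ^ k ∣ tt → (p : ℤ) ^ k ∣ t := by
    intro p k h
    have : ((p ^ k : ℕ) : ℤ) ∣ t := Int.natCast_dvd.mpr h
    exact_mod_cast this
  have h2 := loc2 dd nn tt G x y hsqd (Nat.pos_of_ne_zero hnn0) (Nat.pos_of_ne_zero htt0) hG hx hy
      hP hQ (fun h1 h2 => by
        refine semi_two W hco e d n t h3e ha hb ?_ ?_
        · have := hcn (p := 2) (k := 1) (by rw [pow_one]; exact h1)
          simpa using this
        · have := hct h2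
          norm_num at this
          exact this)
  have h3 := loc3 dd nn tt G x y hsqd (Nat.pos_of_ne_zero hnn0) (Nat.pos_of_ne_zero htt0) hG hx hy
      hP hQ (fun h1 h2 => by
        refine semi_three W hco e d n t h3e ha hb ?_ ?_
        · have := hcn h1
          norm_num at this
          exact this
        · have := hct h2
          norm_num at this
          exact this)
  -- divisibility at primes at least 5
  have hpt : ∀ p : ℕ, p.Prime → 5 ≤ p → p ∣ G * y → (p : ℤ) ∣ t := by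
    intro p hp hp5 hpG
    rw [← hQ] at hpG
    rcases hp.dvd_mul.mp hpG with h | h
    · exact absurd h (not_dvd_small hp hp5).2
    · exact Int.natCast_dvd.mpr h
  have hpd : ∀ p : ℕ, p.Prime → 5 ≤ p → p ∣ G → (p : ℤ) ∣ d * n ^ 2 := by
    intro p hp hp5 hpG
    have h1 : p ∣ 4 * dd * nn ^ 3 := by rw [hP]; exact hpG.mul_right _
    rcases hp.dvd_mul.mp h1 with h | h
    · rcases hp.dvd_mul.mp h with h | h
      · exact absurd h (not_dvd_small hp hp5).1
      · exact (Int.natCast_dvd.mpr h).mul_right _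
    · have : (p : ℤ) ∣ n := Int.natCast_dvd.mpr (hp.dvd_of_dvd_pow h)
      exact (this.pow (by norm_num)).mul_left _
  have hpe : ∀ p : ℕ, p.Prime → 5 ≤ p → (p : ℤ) ∣ d * n ^ 2 → (p : ℤ) ∣ e := by
    intro p hp hp5 h1
    have : (p : ℤ) ^ 1 ∣ 3 * e := by rw [pow_one, h3e]; exact h1
    have := dvd_of_dvd_three_mul hp (by omega) this
    simpa using this
  have hGno : ∀ p : ℕ, p.Prime → 5 ≤ p → ¬ p ∣ G := by
    intro p hp hp5 h
    have q1 := hpe p hp hp5 (hpd p hp hp5 h)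
    have q2 := hpt p hp hp5 (h.mul_right _)
    refine not_both W hco p hp.two_le (prime_dvd_of_27 hp hp5 ?_) (prime_dvd_of_const hp hp5 ?_)
    · rw [ha]
      exact dvd_sub ((q1.pow (by norm_num)).mul_left 3) (q2.mul_left _)
    · rw [hDd]
      exact ((q2.pow (by norm_num)).mul_left _).mul_right _
  have hdno : ∀ p : ℕ, p.Prime → 5 ≤ p → ¬ p ∣ dd := by
    intro p hp hp5 h
    have q0 : (p : ℤ) ∣ d := Int.natCast_dvd.mpr h
    have q1 := hpe p hp hp5 (q0.mul_right _)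
    refine not_both W hco p hp.two_le (prime_dvd_of_27 hp hp5 ?_) (prime_dvd_of_const hp hp5 ?_)
    · rw [ha]
      refine dvd_sub ((q1.pow (by norm_num)).mul_left 3) ?_
      exact ((q0.mul_left 2).mul_right _).mul_right _
    · rw [hDd]
      exact ((q0.pow (by norm_num)).mul_right _).mul_right _
  have hloc : ∀ p : ℕ, p.Prime → 5 ≤ p → G.factorization p ≤ 2 ∧
      (2 ≤ G.factorization p → p ∣ x) ∧ (p ∣ dd → ¬ p ∣ G → p ∣ x) ∧
      (p ∣ x → ¬ p ∣ nn → p ∣ dd ∧ ¬ p ∣ G) ∧ (p ∣ G → ¬ p ∣ x → p ∣ dd) := by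
    intro p hp hp5
    have hg := hGno p hp hp5
    have hd := hdno p hp hp5
    have hv : G.factorization p = 0 := Nat.factorization_eq_zero_of_not_dvd hg
    refine ⟨by omega, fun h => by omega, fun h => absurd h hd, fun h1 h2 => ?_,
      fun h => absurd h hg⟩
    exfalso
    have h4 : p ∣ 4 * dd * nn ^ 3 := by rw [hP]; exact h1.mul_left _
    rcases hp.dvd_mul.mp h4 with h | h
    · rcases hp.dvd_mul.mp h with h | h
      · exact absurd h (not_dvd_small hp hp5).1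
      · exact hd h
    · exact h2 (hp.dvd_of_dvd_pow h)
  have hxu : Nat.Coprime x (y * z) := Nat.Coprime.mul_right hxy hxz
  obtain ⟨c, m, h, T, hc, hc8, hm, hh, hT, hGc, hmd, hhd, hrx, hprod⟩ :=
    decomp3 dd nn G x (y * z) hdd0 hnn0 hG hx (by positivity) hxu h2 h3 hloc
  have hWe : (G * dd).primeFactors.filter (fun p => 5 ≤ p) = ∅ := by
    apply filter_eq_empty_iff.mpr
    intro p hp hp5
    have hpp := Nat.prime_of_mem_primeFactors hp
    rcases hpp.dvd_mul.mp (Nat.dvd_of_mem_primeFactors hp) with h | h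
    · exact hGno p hpp hp5 h
    · exact hdno p hpp hp5 h
  rw [hWe, filter_empty, prod_empty, mul_one, mul_one] at hprod
  have hGle : G ≤ c := by
    calc G = G * 1 * 1 := by ring
      _ ≤ G * m * T := by gcongr <;> omega
      _ ≤ c := hprod
  have hT1 : T = 1 := by
    have h1 : c * T ≤ c := by
      calc c * T = c * 1 * 1 * 1 * T := by ring
        _ ≤ c * m * h * m * T := by gcongr <;> omega
        _ = G * m * T := by rw [hGc]
        _ ≤ c := hprod
    have : T ≤ 1 := by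
      by_contra hcon
      push Not at hcon
      nlinarith
    omega
  rw [hT1, mul_one] at hrx
  have hryz : rad (y * z) ≤ 6 * Pool.Agent.H925R.Szpiro.cond W := by
    unfold rad
    rw [← prod_filter_mul_prod_filter_not (y * z).primeFactors (fun p => 5 ≤ p), mul_comm]
    have r1 : ∏ p ∈ (y * z).primeFactors.filter (fun p => ¬ 5 ≤ p), p ≤ 6 := by
      have : ∏ p ∈ (y * z).primeFactors.filter (fun p => ¬ 5 ≤ p), p ≤
          ∏ p ∈ ({2, 3} : Finset ℕ), p := by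
        refine prod_le_prod_of_subset_of_one_le' ?_ ?_
        · intro p hp
          rw [mem_filter] at hp
          exact small_prime p (Nat.prime_of_mem_primeFactors hp.1) hp.2
        · intro p hp _
          simp only [mem_insert, mem_singleton] at hp
          omega
      rw [prod_pair (by norm_num)] at this
      omega
    have r2 : ∏ p ∈ (y * z).primeFactors.filter (fun p => 5 ≤ p), p ≤ Pool.Agent.H925R.Szpiro.cond W := by
      unfold Pool.Agent.H925R.Szpiro.cond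
      refine prod_le_prod_of_subset_of_one_le' ?_ ?_
      · intro p hp
        rw [mem_filter] at hp
        have hpp := Nat.prime_of_mem_primeFactors hp.1
        refine Nat.mem_primeFactors.mpr ⟨hpp, ?_, Int.natAbs_ne_zero.mpr hΔ⟩
        rw [← Int.natCast_dvd]
        apply prime_dvd_of_const hpp hp.2
        rw [hDd]
        rcases hpp.dvd_mul.mp (Nat.dvd_of_mem_primeFactors hp.1) with h | h
        · have q2 := hpt p hpp hp.2 (h.mul_left _)
          exact ((q2.pow (by norm_num)).mul_left _).mul_right _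
        · refine Dvd.dvd.mul_left ?_ _
          rw [Int.natCast_dvd, hWG]
          exact h.mul_left _
      · intro p hp _
        exact (Nat.prime_of_mem_primeFactors hp).one_lt.le
    exact Nat.mul_le_mul r1 r2
  obtain ⟨sd, hsd, hds⟩ := sign_split d
  obtain ⟨st, hst, hts⟩ := sign_split t
  have hnz : n = (nn : ℤ) := by rw [hnn, Int.natCast_natAbs, abs_of_pos hn0]
  refine ⟨sd, st, dd, nn, tt, G, x, y, z, hsd, hst, Nat.pos_of_ne_zero hdd0,
    Nat.pos_of_ne_zero hnn0, Nat.pos_of_ne_zero htt0, hG, hGle.trans hc8, hx, hy, hz, hxy, hxz, hyz,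
    hrel, ?_, ?_, ?_, hP, hQ, ?_⟩
  · rw [← hnz, ← hds]; exact h3e
  · rw [← hnz, ← hds, ← hts]; exact ha
  · rw [← hds]
    have : ((tt : ℕ) : ℤ) ^ 2 = t ^ 2 := by rw [htt, Int.natCast_natAbs, sq_abs]
    rw [this]; exact hb
  · calc rad x * rad (y * z) * G ≤ (6 * nn) * (6 * Pool.Agent.H925R.Szpiro.cond W) * 6 ^ 8 :=
        Nat.mul_le_mul (Nat.mul_le_mul hrx hryz) (hGle.trans hc8)
      _ = _ := by ring

end Pool.Agent.W271.Three
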