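import Pool.Agent.W271.Three.Semi

/-!
# Semistable curves with a rational 3-isogeny: the count
-/

set_option autoImplicit false
set_option linter.unusedVariables false

namespace Pool.Agent.W271.Three

open Finset
open Pool.Agent.H328R2.ABC

/-- the exceptional classes -/
def ExcSS (κ c₀ : ℝ) (X : ℕ) : Set (ℤ × ℤ) :=
  {q | ∃ W : WeierstrassCurve ℤ, W.Δ ≠ 0 ∧ IsCoprime W.c₄ W.Δ ∧ ThreeT W ∧ q = (W.c₄, W.c₆) ∧
    |W.c₄| ^ 3 ≤ (X : ℤ) ^ 6 ∧ W.c₆ ^ 2 ≤ (X : ℤ) ^ 6 ∧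
    c₀ * (Pool.Agent.H925R.Szpiro.cond W : ℝ) ^ κ <
      max (|(W.c₄ : ℝ)| ^ 3) ((W.c₆ : ℝ) ^ 2)}

theorem mem_semi (κ c₀ : ℝ) (hκ : 6 ≤ κ) (hc₀ : 0 < c₀) (X : ℕ) (hX : 1 ≤ X)
    (W : WeierstrassCurve ℤ) (hΔ : W.Δ ≠ 0) (hco : IsCoprime W.c₄ W.Δ) (hT : ThreeT W)
    (h4 : |W.c₄| ^ 3 ≤ (X : ℤ) ^ 6) (h6 : W.c₆ ^ 2 ≤ (X : ℤ) ^ 6)
    (hbig : c₀ * (Pool.Agent.H925R.Szpiro.cond W : ℝ) ^ κ <
      max (|(W.c₄ : ℝ)| ^ 3) ((W.c₆ : ℝ) ^ 2)) :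
    ∃ t ∈ SS κ (max 1 (36 * 6 ^ 8 * (1 / c₀) ^ (1 / κ))) (6 * X) 1,
      (27 * W.c₄, 54 * W.c₆) ∈ VV 1 t := by
  classical
  obtain ⟨r, hr⟩ := threeT_root W 1 (27 * W.c₄) (54 * W.c₆) one_ne_zero (by push_cast; ring)
    (by push_cast; ring) hT
  obtain ⟨e, he⟩ := div3_int (27 * W.c₄) (54 * W.c₆) r hr
  have he0 : e ≠ 0 := by
    rintro rfl
    have h0 : (27 * W.c₄) ^ 2 = 0 := by linarith
    have h1 : 27 * W.c₄ = 0 := pow_eq_zero_iff (by norm_num) |>.mp h0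
    have hc4 : W.c₄ = 0 := by omega
    rw [hc4] at hco
    have hu : IsUnit W.Δ := isCoprime_zero_left.mp hco
    have hrel := W.c_relation
    rw [hc4] at hrel
    rcases Int.isUnit_iff.mp hu with h | h
    · rw [h] at hrel
      have : W.c₆ ^ 2 = -1728 := by linarith
      nlinarith [sq_nonneg W.c₆]
    · rw [h] at hrel
      have h2 : W.c₆ ^ 2 = 1728 := by linarith
      have h3 : |W.c₆| < 42 := by
        apply abs_lt_of_sq_lt_sq _ (by norm_num)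
        rw [h2]; norm_num
      have h4 : 41 < |W.c₆| := by
        apply lt_of_pow_lt_pow_left₀ 2 (abs_nonneg _)
        rw [sq_abs, h2]; norm_num
      omega
  obtain ⟨sd, st, dd, n, tt, c, x, y, z, hsd, hst, hdd, hn, htt, hc, hc8, hx, hy, hz,
    hxy, hxz, hyz, hrel, h3e, hae, hbe, hP, hQ, hrad⟩ := data_semi W hΔ hco e he0 he
  obtain ⟨i, t, hi, hit, htp, ht1, ht2, htc, hxs, hys, hsxy⟩ := pick x y z hx hy hz hxy hxz hyz hrel
  set s := t.1 + t.2 with hs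
  have hs2 : 2 ≤ s := by omega
  have hX6 : 1 ≤ 6 * X := by omega
  -- casts
  have hXR : (1 : ℝ) ≤ ((6 * X : ℕ) : ℝ) := by exact_mod_cast hX6
  have hc4 : |W.c₄| ≤ (X : ℤ) ^ 2 := by
    by_contra hcon
    push Not at hcon
    have : ((X : ℤ) ^ 2) ^ 3 < |W.c₄| ^ 3 := pow_lt_pow_left₀ hcon (by positivity) (by norm_num)
    have e : ((X : ℤ) ^ 2) ^ 3 = (X : ℤ) ^ 6 := by ring
    rw [e] at this
    exact absurd h4 (not_le.mpr this)
  have hc6 : |W.c₆| ≤ (X : ℤ) ^ 3 := by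
    apply abs_le_of_sq_le_sq _ (by positivity)
    calc W.c₆ ^ 2 ≤ (X : ℤ) ^ 6 := h6
      _ = _ := by ring
  have haR : |((27 * W.c₄ : ℤ) : ℝ)| ≤ ((6 * X : ℕ) : ℝ) ^ 2 := by
    have h1 : |27 * W.c₄| ≤ ((6 * X : ℕ) : ℤ) ^ 2 := by
      rw [abs_mul]
      push_cast
      norm_num
      nlinarith [abs_nonneg W.c₄, sq_nonneg (X : ℤ)]
    exact_mod_cast h1
  have hbR : |((54 * W.c₆ : ℤ) : ℝ)| ≤ ((6 * X : ℕ) : ℝ) ^ 3 := by
    have h1 : |54 * W.c₆| ≤ ((6 * X : ℕ) : ℤ) ^ 3 := by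
      rw [abs_mul]
      push_cast
      norm_num
      have : (0 : ℤ) ≤ (X : ℤ) ^ 3 := by positivity
      nlinarith [abs_nonneg W.c₆]
    exact_mod_cast h1
  have heR : 3 * (e : ℝ) ^ 4 - 6 * ((27 * W.c₄ : ℤ) : ℝ) * (e : ℝ) ^ 2 -
      12 * ((54 * W.c₆ : ℤ) : ℝ) * e - (((27 * W.c₄ : ℤ) : ℝ)) ^ 2 = 0 := by
    exact_mod_cast he
  have hsdR : (sd : ℝ) = 1 ∨ (sd : ℝ) = -1 := by
    rcases hsd with h | h <;> rw [h] <;> simp
  have hstR : (st : ℝ) = 1 ∨ (st : ℝ) = -1 := by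
    rcases hst with h | h <;> rw [h] <;> simp
  have h3eR : 3 * (e : ℝ) = sd * (dd : ℝ) * (n : ℝ) ^ 2 := by exact_mod_cast h3e
  have haeR : ((27 * W.c₄ : ℤ) : ℝ) = 3 * (e : ℝ) ^ 2 - 2 * (sd * (dd : ℝ)) * n * (st * (tt : ℝ)) := by
    exact_mod_cast hae
  have hbeR : ((54 * W.c₆ : ℤ) : ℝ) = (e : ℝ) ^ 3 - ((27 * W.c₄ : ℤ) : ℝ) * e -
      sd * (dd : ℝ) * (tt : ℝ) ^ 2 := by
    exact_mod_cast hbe
  have hPR : 4 * (dd : ℝ) * (n : ℝ) ^ 3 = c * x := by exact_mod_cast hP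
  have hQR : 27 * (tt : ℝ) = c * y := by exact_mod_cast hQ
  have hsizeX := size_X _ _ e dd n tt sd st _ hXR haR hbR heR hsdR (Nat.cast_nonneg _)
    (Nat.cast_nonneg _) (Nat.cast_nonneg _) h3eR hbeR
  have hsize1 : (c * (x + y)) ^ 2 * dd ≤ 68526 * (6 * X) ^ 3 := by
    rw [hPR, hQR] at hsizeX
    have : ((c : ℝ) * (x + y)) ^ 2 * dd ≤ 68526 * ((6 * X : ℕ) : ℝ) ^ 3 := by
      calc ((c : ℝ) * (x + y)) ^ 2 * dd = (c * x + c * y) ^ 2 * dd := by ring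
        _ ≤ _ := hsizeX
    exact_mod_cast this
  have hms : 1 ^ 3 * s ^ 2 ≤ 68526 * (6 * X) ^ 3 := by
    calc 1 ^ 3 * s ^ 2 = (1 * s) ^ 2 * 1 := by ring
      _ ≤ (c * (x + y)) ^ 2 * dd := by gcongr <;> omega
      _ ≤ _ := hsize1
  have hxsR : (x : ℝ) ≤ s := by exact_mod_cast hxs
  have hysR : (y : ℝ) ≤ s := by exact_mod_cast hys
  have hG0R : (0 : ℝ) < c := by exact_mod_cast hc
  have hs0R : (0 : ℝ) < s := by exact_mod_cast (by omega : 0 < s)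
  have hw1 : 4 * (dd : ℝ) * (n : ℝ) ^ 3 ≤ c * s := by
    rw [hPR]; exact mul_le_mul_of_nonneg_left hxsR hG0R.le
  have hw2 : 27 * (tt : ℝ) ≤ c * s := by
    rw [hQR]; exact mul_le_mul_of_nonneg_left hysR hG0R.le
  have hsizeH := size_H _ _ e dd n tt sd st (c * s) hsdR hstR (Nat.cast_nonneg _)
    (Nat.cast_nonneg _) (Nat.cast_nonneg _) h3eR haeR hbeR hw1 hw2
  have hradR : (rad x * rad (y * z) : ℕ) * (c : ℝ) * (1 : ℝ) ≤
      (36 * 6 ^ 8) * (n : ℝ) * (Pool.Agent.H925R.Szpiro.cond W : ℝ) := by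
    rw [mul_one]
    exact_mod_cast hrad
  have hcp : Nat.Coprime x (y * z) := Nat.Coprime.mul_right hxy hxz
  have hexc : (Pool.Agent.H925R.Szpiro.cond W : ℝ) ^ κ < 1 / c₀ *
      (4 * |((27 * W.c₄ : ℤ) : ℝ)| ^ 3 + 27 * ((54 * W.c₆ : ℤ) : ℝ) ^ 2) := by
    rw [one_div, ← div_eq_inv_mul, lt_div_iff₀ hc₀, mul_comm]
    refine lt_of_lt_of_le hbig ?_
    push_cast
    rw [abs_mul]
    norm_num
    have e1 : 0 ≤ |(W.c₄ : ℝ)| ^ 3 := by positivity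
    have e2 : 0 ≤ (W.c₆ : ℝ) ^ 2 := sq_nonneg _
    constructor <;> nlinarith
  have hri := rad_ineq κ (1 / c₀) (36 * 6 ^ 8) hκ (by positivity) (by norm_num)
    ((rad x * rad (y * z) : ℕ) : ℝ) c 1 n
    (Pool.Agent.H925R.Szpiro.cond W) _ dd s (Nat.cast_nonneg _)
    (le_refl _) (by exact_mod_cast hc) (by exact_mod_cast hdd) (Nat.cast_nonneg _)
    (Nat.cast_nonneg _) hs0R hradR hw1 hexc hsizeH
  refine ⟨t, ?_, ?_⟩
  · unfold SS
    rw [mem_filter, mem_product, mem_range, mem_range]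
    have hs3 : s ≤ 68526 * (6 * X) ^ 3 := by
      calc s = 1 * s := by ring
        _ ≤ 1 ^ 3 * s ^ 2 := Nat.mul_le_mul (by norm_num) (Nat.le_self_pow (by norm_num) s)
        _ ≤ _ := hms
    refine ⟨⟨by omega, by omega⟩, ht1, ht2, htc, hms, ?_⟩
    rw [htp, rad_mul hcp, Nat.cast_one]
    refine hri.trans (mul_le_mul_of_nonneg_right (le_max_right _ _) (by positivity))
  · have hgx : c * 1 * 1 * (xyOf i t).1 = 4 * dd * n ^ 3 := by
      rw [hit, mul_one, mul_one, hP]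
    have hgx0 : c * 1 * 1 * (xyOf i t).1 ≠ 0 := by
      rw [hgx]; positivity
    unfold VV
    rw [mem_biUnion]
    refine ⟨1, Nat.one_mem_divisors.mpr (by positivity), ?_⟩
    rw [mem_biUnion]
    refine ⟨i, mem_range.mpr hi, ?_⟩
    rw [mem_biUnion]
    refine ⟨c, mem_Icc.mpr ⟨hc, hc8⟩, ?_⟩
    rw [mem_biUnion]
    refine ⟨dd, ?_, ?_⟩
    · rw [Nat.mem_divisors]
      exact ⟨by rw [hgx]; exact ⟨4 * n ^ 3, by ring⟩, hgx0⟩
    rw [mem_biUnion]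
    refine ⟨n, ?_, ?_⟩
    · rw [Nat.mem_divisors]
      exact ⟨by rw [hgx]; exact ⟨4 * dd * n ^ 2, by ring⟩, hgx0⟩
    rw [mem_image]
    refine ⟨(sd, st), ?_, ?_⟩
    · rw [mem_product]
      simp only [mem_insert, mem_singleton]
      exact ⟨hsd, hst⟩
    · have k1 : c * 1 * 1 * (xyOf i t).2 / 27 = tt := by
        rw [hit, mul_one, mul_one, ← hQ]
        exact Nat.mul_div_cancel_left tt (by norm_num)
      have k2 : sd * (dd : ℤ) * (n : ℤ) ^ 2 / 3 = e := by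
        rw [← h3e]
        exact Int.mul_ediv_cancel_left e (by norm_num)
      unfold mdl
      simp only
      rw [k1, k2, ← hae, ← hbe]

/-- the number of models attached to a pair -/
theorem VV_card (δ : ℝ) (hδ : 0 < δ) : ∃ C : ℝ, 0 < C ∧ ∀ X : ℕ, 1 ≤ X → ∀ t : ℕ × ℕ,
    0 < t.1 → 0 < t.2 → t.1 + t.2 ≤ 262 * X ^ 2 → ((VV 1 t).card : ℝ) ≤ C * (X : ℝ) ^ δ := by
  classical
  obtain ⟨C3, hC3, h3⟩ := Pool.Agent.H510R2.divisor_bound (δ / 45) (by positivity)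
  set A : ℕ := 6 ^ 8 * 26 * 262 ^ 7 with hA
  have hA0 : 0 < A := by rw [hA]; norm_num
  refine ⟨12 * 6 ^ 8 * (C3 * (A : ℝ) ^ (δ / 45)) ^ 3, by positivity, fun X hX t t1 t2 t3 => ?_⟩
  have hX1 : (1 : ℝ) ≤ X := by exact_mod_cast hX
  have hX0 : (0 : ℝ) < X := by linarith
  set T : ℕ := ⌊C3 * ((A : ℝ) * (X : ℝ) ^ 15) ^ (δ / 45)⌋₊ with hT
  have hdiv : ∀ N : ℕ, 1 ≤ N → N ≤ A * X ^ 15 → N.divisors.card ≤ T := by
    intro N hN1 hN2
    apply Nat.le_floor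
    refine (h3 N hN1).trans ?_
    have : (N : ℝ) ≤ (A : ℝ) * (X : ℝ) ^ 15 := by exact_mod_cast hN2
    gcongr
  have hP0 : 0 < t.1 * t.2 * (t.1 + t.2) := by positivity
  have hP : t.1 * t.2 * (t.1 + t.2) ≤ (262 * X ^ 2) ^ 3 := by
    calc t.1 * t.2 * (t.1 + t.2) ≤ (262 * X ^ 2) * (262 * X ^ 2) * (262 * X ^ 2) := by
          gcongr <;> omega
      _ = _ := by ring
  have hP2 : (t.1 * t.2 * (t.1 + t.2)) ^ 2 ≤ 262 ^ 6 * X ^ 12 := by
    calc (t.1 * t.2 * (t.1 + t.2)) ^ 2 ≤ ((262 * X ^ 2) ^ 3) ^ 2 := Nat.pow_le_pow_left hP 2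
      _ = _ := by ring
  have hV : (VV 1 t).card ≤ T * (3 * (6 ^ 8 * (T * (T * 4)))) := by
    unfold VV
    refine (card_biUnion_le_card_mul _ _ (3 * (6 ^ 8 * (T * (T * 4)))) ?_).trans ?_
    · intro h hh
      have hh1 : h ≤ 262 ^ 6 * X ^ 12 :=
        (Nat.le_of_dvd (by positivity) (Nat.dvd_of_mem_divisors hh)).trans hP2
      have hh0 : 0 < h := Nat.pos_of_mem_divisors hh
      refine (card_biUnion_le_card_mul _ _ (6 ^ 8 * (T * (T * 4))) ?_).trans (by rw [card_range])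
      intro i hi
      refine (card_biUnion_le_card_mul _ _ (T * (T * 4)) ?_).trans
        (by rw [Nat.card_Icc, Nat.add_sub_cancel])
      intro c hc
      obtain ⟨hc1, hc2⟩ := mem_Icc.mp hc
      have hx := xyOf_le i t
      have hx0 := xyOf_pos i t t1
      have hN1 : 1 ≤ c * 1 * h * (xyOf i t).1 := by
        have : 0 < c * 1 * h * (xyOf i t).1 := by positivity
        omega
      have hN2 : c * 1 * h * (xyOf i t).1 ≤ A * X ^ 15 := by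
        calc c * 1 * h * (xyOf i t).1 ≤ 6 ^ 8 * (26 * X) * (262 ^ 6 * X ^ 12) * (262 * X ^ 2) := by
              gcongr
              · omega
              · exact hx.trans t3
          _ = A * X ^ 15 := by rw [hA]; ring
      have hd := hdiv _ hN1 hN2
      refine (card_biUnion_le_card_mul _ _ (T * 4) ?_).trans (Nat.mul_le_mul_right _ hd)
      intro dd hdd
      refine (card_biUnion_le_card_mul _ _ 4 ?_).trans (Nat.mul_le_mul_right _ hd)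
      intro n hn
      refine card_image_le.trans ?_
      rw [card_product]
      have : ({1, -1} : Finset ℤ).card ≤ 2 := card_le_two
      nlinarith
    · apply Nat.mul_le_mul_right
      apply hdiv
      · have : 0 < (t.1 * t.2 * (t.1 + t.2)) ^ 2 := by positivity
        omega
      · refine hP2.trans ?_
        have e1 : X ^ 12 ≤ X ^ 15 := Nat.pow_le_pow_right hX (by norm_num)
        have e2 : 262 ^ 6 ≤ A := by rw [hA]; norm_num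
        exact Nat.mul_le_mul e2 e1
  have hTle : (T : ℝ) ≤ C3 * (A : ℝ) ^ (δ / 45) * (X : ℝ) ^ (15 * (δ / 45)) := by
    rw [hT]
    refine (Nat.floor_le (by positivity)).trans (le_of_eq ?_)
    rw [Real.mul_rpow (by positivity) (by positivity), ← Real.rpow_natCast (X : ℝ) 15,
      ← Real.rpow_mul hX0.le]
    push_cast
    ring
  have hT0 : (0 : ℝ) ≤ T := Nat.cast_nonneg _
  have hVR : ((VV 1 t).card : ℝ) ≤ ((T * (3 * (6 ^ 8 * (T * (T * 4)))) : ℕ) : ℝ) := by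
    exact_mod_cast hV
  calc ((VV 1 t).card : ℝ) ≤ _ := hVR
    _ = 12 * 6 ^ 8 * (T : ℝ) ^ 3 := by push_cast; ring
    _ ≤ 12 * 6 ^ 8 * (C3 * (A : ℝ) ^ (δ / 45) * (X : ℝ) ^ (15 * (δ / 45))) ^ 3 := by gcongr
    _ = 12 * 6 ^ 8 * (C3 * (A : ℝ) ^ (δ / 45)) ^ 3 * ((X : ℝ) ^ (15 * (δ / 45))) ^ 3 := by ring
    _ = _ := by
        rw [← Real.rpow_natCast ((X : ℝ) ^ (15 * (δ / 45))) 3, ← Real.rpow_mul hX0.le]
        congr 2
        push_cast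
        ring

theorem semi_three_count (κ c₀ ε : ℝ) (hκ : 6 ≤ κ) (hc₀ : 0 < c₀) (hε : 0 < ε) :
    ∃ C : ℝ, 0 < C ∧ ∀ X : ℕ, 1 ≤ X →
      (ExcSS κ c₀ X).Finite ∧
      ((ExcSS κ c₀ X).ncard : ℝ) ≤ C * (X : ℝ) ^ (min (9 / 11) (2 / 7 + 24 / (7 * κ)) + ε) := by
  classical
  have hκ0 : 0 < κ := by linarith
  set B : ℝ := max 1 (36 * 6 ^ 8 * (1 / c₀) ^ (1 / κ)) with hB
  have hB1 : 1 ≤ B := le_max_left _ _
  obtain ⟨C1, hC1, h1⟩ := pairs_A κ B (ε / 2) hκ hB1 (by positivity)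
  obtain ⟨C2, hC2, h2⟩ := pairs_B κ B (ε / 2) hκ hB1 (by positivity)
  obtain ⟨C3, hC3, h3⟩ := VV_card (ε / 2) (by positivity)
  set θ : ℝ := min (9 / 11) (2 / 7 + 24 / (7 * κ)) with hθ
  have hθ0 : 0 < θ := lt_min (by norm_num) (by positivity)
  refine ⟨(C1 + C2) * (6 : ℝ) ^ (θ + ε / 2) * (C3 * (6 : ℝ) ^ (ε / 2)), by positivity,
    fun X hX => ?_⟩
  have hX1 : (1 : ℝ) ≤ X := by exact_mod_cast hX
  have hX0 : (0 : ℝ) < X := by linarith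
  have hX6 : 1 ≤ 6 * X := by omega
  set S := SS κ B (6 * X) 1 with hS
  have hPC : ∀ t ∈ S, PC κ B (6 * X) 1 t := by
    intro t ht
    rw [hS] at ht
    unfold SS at ht
    exact (mem_filter.mp ht).2
  set E := (S.biUnion fun t => VV 1 t).image (fun q : ℤ × ℤ => (q.1 / 27, q.2 / 54)) with hE
  have hsub : ExcSS κ c₀ X ⊆ ((E : Finset (ℤ × ℤ)) : Set (ℤ × ℤ)) := by
    rintro q ⟨W, hΔ, hco, hT, rfl, h4, h6, hbig⟩
    obtain ⟨t, ht, hm⟩ := mem_semi κ c₀ hκ hc₀ X hX W hΔ hco hT h4 h6 hbig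
    rw [mem_coe, hE, mem_image]
    refine ⟨(27 * W.c₄, 54 * W.c₆), ?_, ?_⟩
    · rw [mem_biUnion]
      exact ⟨t, ht, hm⟩
    · simp only
      rw [Int.mul_ediv_cancel_left _ (by norm_num), Int.mul_ediv_cancel_left _ (by norm_num)]
  have hfin : (ExcSS κ c₀ X).Finite := Set.Finite.subset (Finset.finite_toSet _) hsub
  refine ⟨hfin, ?_⟩
  have c1 : ((ExcSS κ c₀ X).ncard : ℝ) ≤ E.card := by
    have : (ExcSS κ c₀ X).ncard ≤ E.card := by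
      rw [← Set.ncard_coe_finset]
      exact Set.ncard_le_ncard hsub (Finset.finite_toSet _)
    exact_mod_cast this
  have c2 : (E.card : ℝ) ≤ ∑ t ∈ S, ((VV 1 t).card : ℝ) := by
    have : E.card ≤ ∑ t ∈ S, (VV 1 t).card := card_image_le.trans card_biUnion_le
    exact_mod_cast this
  have c3 : ∀ t ∈ S, ((VV 1 t).card : ℝ) ≤ C3 * ((6 * X : ℕ) : ℝ) ^ (ε / 2) := by
    intro t ht
    obtain ⟨q1, q2, q3, q4, q5⟩ := hPC t ht
    refine h3 (6 * X) hX6 t q1 q2 ?_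
    have e1 : (t.1 + t.2) ^ 2 ≤ (262 * (6 * X) ^ 2) ^ 2 := by
      calc (t.1 + t.2) ^ 2 = 1 ^ 3 * (t.1 + t.2) ^ 2 := by ring
        _ ≤ 68526 * (6 * X) ^ 3 := q4
        _ ≤ 68644 * (6 * X) ^ 4 := by
            have : (6 * X) ^ 3 ≤ (6 * X) ^ 4 := Nat.pow_le_pow_right hX6 (by norm_num)
            omega
        _ = _ := by ring
    exact (Nat.pow_le_pow_iff_left (by norm_num)).mp e1
  have c4 : (S.card : ℝ) ≤ (C1 + C2) * ((6 * X : ℕ) : ℝ) ^ (θ + ε / 2) := by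
    have d1 := h1 (6 * X) hX6 1 (le_refl _) S hPC
    have d2 := h2 (6 * X) hX6 1 (le_refl _) S hPC
    rw [Nat.cast_one, Real.one_rpow, mul_one] at d1 d2
    have hp : ∀ w : ℝ, 0 ≤ ((6 * X : ℕ) : ℝ) ^ w := fun w => by positivity
    rcases min_choice (9 / 11 : ℝ) (2 / 7 + 24 / (7 * κ)) with h | h
    · rw [hθ, h]
      refine d2.trans (mul_le_mul_of_nonneg_right (by linarith) (hp _))
    · rw [hθ, h]
      refine d1.trans (mul_le_mul_of_nonneg_right (by linarith) (hp _))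
  calc ((ExcSS κ c₀ X).ncard : ℝ) ≤ ∑ t ∈ S, ((VV 1 t).card : ℝ) := c1.trans c2
    _ ≤ ∑ t ∈ S, C3 * ((6 * X : ℕ) : ℝ) ^ (ε / 2) := sum_le_sum c3
    _ = (S.card : ℝ) * (C3 * ((6 * X : ℕ) : ℝ) ^ (ε / 2)) := by
        rw [sum_const, nsmul_eq_mul]
    _ ≤ ((C1 + C2) * ((6 * X : ℕ) : ℝ) ^ (θ + ε / 2)) * (C3 * ((6 * X : ℕ) : ℝ) ^ (ε / 2)) :=
        mul_le_mul_of_nonneg_right c4 (by positivity)
    _ = (C1 + C2) * (6 : ℝ) ^ (θ + ε / 2) * (C3 * (6 : ℝ) ^ (ε / 2)) *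
          ((X : ℝ) ^ (θ + ε / 2) * (X : ℝ) ^ (ε / 2)) := by
        push_cast
        rw [Real.mul_rpow (by norm_num) hX0.le, Real.mul_rpow (by norm_num) hX0.le]
        ring
    _ = _ := by
        rw [← Real.rpow_add hX0]
        congr 2
        ring

end Pool.Agent.W271.Three
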