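import Pool.Agent.W271.Three.Data2

/-!
# Minimal models with a rational 3-isogeny: size estimates
-/

set_option autoImplicit false
set_option linter.unusedVariables false

namespace Pool.Agent.W271.Three

/-- the root of the 3-division polynomial is at most `3 X` -/
theorem root_le (a b e X : ℝ) (hX : 1 ≤ X) (ha : |a| ≤ X ^ 2) (hb : |b| ≤ X ^ 3)
    (he : 3 * e ^ 4 - 6 * a * e ^ 2 - 12 * b * e - a ^ 2 = 0) : |e| ≤ 3 * X := by
  by_contra hcon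
  push Not at hcon
  set E := |e| with hE
  have hE0 : 0 < E := by linarith
  have hX0 : 0 < X := by linarith
  have h1 : 3 * E ^ 4 ≤ 6 * X ^ 2 * E ^ 2 + 12 * X ^ 3 * E + X ^ 4 := by
    have e4 : E ^ 4 = e ^ 4 := by
      rw [hE]
      calc |e| ^ 4 = (|e| ^ 2) ^ 2 := by ring
        _ = (e ^ 2) ^ 2 := by rw [sq_abs]
        _ = e ^ 4 := by ring
    have e2 : E ^ 2 = e ^ 2 := by rw [hE, sq_abs]
    have h2 : a * e ^ 2 ≤ X ^ 2 * E ^ 2 := by
      rw [e2]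
      exact mul_le_mul_of_nonneg_right ((le_abs_self a).trans ha) (sq_nonneg e)
    have h3 : b * e ≤ X ^ 3 * E := by
      calc b * e ≤ |b * e| := le_abs_self _
        _ = |b| * |e| := abs_mul _ _
        _ ≤ X ^ 3 * E := mul_le_mul_of_nonneg_right hb hE0.le
    have h4 : a ^ 2 ≤ X ^ 4 := by
      rw [← sq_abs]
      calc |a| ^ 2 ≤ (X ^ 2) ^ 2 := pow_le_pow_left₀ (abs_nonneg _) ha 2
        _ = X ^ 4 := by ring
    rw [e4]
    nlinarith
  have g1 : 9 * X ^ 2 ≤ E ^ 2 := by nlinarith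
  have g2 : 9 * (X ^ 2 * E ^ 2) ≤ E ^ 4 := by nlinarith [sq_nonneg E]
  have g3 : 27 * X ^ 3 ≤ E ^ 3 := by
    calc 27 * X ^ 3 = (3 * X) ^ 3 := by ring
      _ ≤ E ^ 3 := pow_le_pow_left₀ (by linarith) hcon.le 3
  have g4 : 27 * (X ^ 3 * E) ≤ E ^ 4 := by
    have : 27 * X ^ 3 * E ≤ E ^ 3 * E := mul_le_mul_of_nonneg_right g3 hE0.le
    linarith [this, (by ring : E ^ 3 * E = E ^ 4)]
  have g5 : 81 * X ^ 4 ≤ E ^ 4 := by
    calc 81 * X ^ 4 = (3 * X) ^ 4 := by ring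
      _ ≤ E ^ 4 := pow_le_pow_left₀ (by linarith) hcon.le 4
  have g6 : 0 < E ^ 4 := by positivity
  nlinarith

/-- upper bounds in terms of `X` -/
theorem size_X (a b e d n t sd st : ℝ) (X : ℝ) (hX : 1 ≤ X) (ha : |a| ≤ X ^ 2) (hb : |b| ≤ X ^ 3)
    (he : 3 * e ^ 4 - 6 * a * e ^ 2 - 12 * b * e - a ^ 2 = 0) (hsd : sd = 1 ∨ sd = -1)
    (hd : 0 ≤ d) (hn : 0 ≤ n) (ht : 0 ≤ t) (h1 : 3 * e = sd * d * n ^ 2)
    (h3 : b = e ^ 3 - a * e - sd * d * t ^ 2) :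
    (4 * d * n ^ 3 + 27 * t) ^ 2 * d ≤ 68526 * X ^ 3 := by
  have hE := root_le a b e X hX ha hb he
  have hX0 : 0 < X := by linarith
  have habs : |sd| = 1 := by rcases hsd with h | h <;> rw [h] <;> norm_num
  have k1 : d * n ^ 2 ≤ 9 * X := by
    have : |3 * e| = d * n ^ 2 := by
      rw [h1, abs_mul, abs_mul, habs, one_mul, abs_of_nonneg hd, abs_of_nonneg (sq_nonneg n)]
    rw [← this, abs_mul]
    norm_num
    linarith
  have k2 : d * t ^ 2 ≤ 31 * X ^ 3 := by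
    have : |e ^ 3 - a * e - b| = d * t ^ 2 := by
      have : e ^ 3 - a * e - b = sd * d * t ^ 2 := by rw [h3]; ring
      rw [this, abs_mul, abs_mul, habs, one_mul, abs_of_nonneg hd, abs_of_nonneg (sq_nonneg t)]
    rw [← this]
    have q1 : |e ^ 3| ≤ 27 * X ^ 3 := by
      rw [abs_pow]
      calc |e| ^ 3 ≤ (3 * X) ^ 3 := pow_le_pow_left₀ (abs_nonneg _) hE 3
        _ = _ := by ring
    have q2 : |a * e| ≤ 3 * X ^ 3 := by
      rw [abs_mul]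
      calc |a| * |e| ≤ X ^ 2 * (3 * X) := mul_le_mul ha hE (abs_nonneg _) (by positivity)
        _ = _ := by ring
    calc |e ^ 3 - a * e - b| ≤ |e ^ 3 - a * e| + |b| := abs_sub _ _
      _ ≤ |e ^ 3| + |a * e| + |b| := by
          have := abs_sub (e ^ 3) (a * e)
          linarith
      _ ≤ _ := by linarith
  have k3 : (d * n ^ 2) ^ 3 ≤ 729 * X ^ 3 := by
    calc (d * n ^ 2) ^ 3 ≤ (9 * X) ^ 3 := pow_le_pow_left₀ (by positivity) k1 3
      _ = _ := by ring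
  have k4 : (4 * d * n ^ 3 + 27 * t) ^ 2 ≤ 2 * ((4 * d * n ^ 3) ^ 2 + (27 * t) ^ 2) := by
    nlinarith [sq_nonneg (4 * d * n ^ 3 - 27 * t)]
  calc (4 * d * n ^ 3 + 27 * t) ^ 2 * d ≤ 2 * ((4 * d * n ^ 3) ^ 2 + (27 * t) ^ 2) * d :=
        mul_le_mul_of_nonneg_right k4 hd
    _ = 32 * (d * n ^ 2) ^ 3 + 1458 * (d * t ^ 2) := by ring
    _ ≤ 32 * (729 * X ^ 3) + 1458 * (31 * X ^ 3) := by gcongr
    _ = _ := by ring

/-- the size of the model in terms of the triple -/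
theorem size_H (a b e d n t sd st w : ℝ) (hsd : sd = 1 ∨ sd = -1) (hst : st = 1 ∨ st = -1)
    (hd : 0 ≤ d) (hn : 0 ≤ n) (ht : 0 ≤ t) (h1 : 3 * e = sd * d * n ^ 2)
    (h2 : a = 3 * e ^ 2 - 2 * (sd * d) * n * (st * t))
    (h3 : b = e ^ 3 - a * e - sd * d * t ^ 2) (hw1 : 4 * d * n ^ 3 ≤ w) (hw2 : 27 * t ≤ w) :
    4 * |a| ^ 3 + 27 * b ^ 2 ≤ d ^ 2 * w ^ 4 := by
  have hw0 : 0 ≤ w := by linarith
  have habs : |sd| = 1 := by rcases hsd with h | h <;> rw [h] <;> norm_num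
  have habt : |st| = 1 := by rcases hst with h | h <;> rw [h] <;> norm_num
  have he : |e| = d * n ^ 2 / 3 := by
    have : |3 * e| = d * n ^ 2 := by
      rw [h1, abs_mul, abs_mul, habs, one_mul, abs_of_nonneg hd, abs_of_nonneg (sq_nonneg n)]
    rw [abs_mul] at this
    norm_num at this
    linarith
  have ka : |a| ≤ d * n * w / 6 := by
    calc |a| ≤ |3 * e ^ 2| + |2 * (sd * d) * n * (st * t)| := by
          rw [h2]; exact abs_sub _ _
      _ = 3 * |e| ^ 2 + 2 * d * n * t := by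
          rw [abs_mul, abs_mul, abs_mul, abs_mul, abs_mul, abs_mul, habs, habt, abs_pow,
            abs_of_nonneg hd, abs_of_nonneg hn, abs_of_nonneg ht]
          norm_num
      _ = d * n * ((d * n ^ 3) / 3 + 2 * t) := by rw [he]; ring
      _ ≤ d * n * (w / 6) := by
          apply mul_le_mul_of_nonneg_left _ (by positivity)
          linarith
      _ = _ := by ring
  have kb : |b| ≤ d * w ^ 2 / 50 := by
    have q1 : |e| ^ 3 = d * (d * n ^ 3) ^ 2 / 27 := by rw [he]; ring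
    have q2 : |a| * |e| ≤ d * (d * n ^ 3) * w / 18 := by
      calc |a| * |e| ≤ (d * n * w / 6) * |e| := mul_le_mul_of_nonneg_right ka (abs_nonneg _)
        _ = _ := by rw [he]; ring
    have q3 : |b| ≤ |e| ^ 3 + |a| * |e| + d * t ^ 2 := by
      calc |b| ≤ |e ^ 3 - a * e| + |sd * d * t ^ 2| := by rw [h3]; exact abs_sub _ _
        _ ≤ |e ^ 3| + |a * e| + |sd * d * t ^ 2| := by
            have := abs_sub (e ^ 3) (a * e)
            linarith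
        _ = _ := by
            rw [abs_pow, abs_mul, abs_mul, abs_mul, habs, one_mul, abs_of_nonneg hd,
              abs_of_nonneg (sq_nonneg t)]
    have q4 : (d * n ^ 3) ^ 2 ≤ (w / 4) ^ 2 :=
      pow_le_pow_left₀ (by positivity) (by linarith) 2
    have q5 : d * n ^ 3 ≤ w / 4 := by linarith
    have q6 : t ^ 2 ≤ (w / 27) ^ 2 := pow_le_pow_left₀ ht (by linarith) 2
    calc |b| ≤ d * (d * n ^ 3) ^ 2 / 27 + d * (d * n ^ 3) * w / 18 + d * t ^ 2 := by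
          rw [← q1]; linarith
      _ ≤ d * (w / 4) ^ 2 / 27 + d * (w / 4) * w / 18 + d * (w / 27) ^ 2 := by gcongr
      _ ≤ d * w ^ 2 / 50 := by
          have : 0 ≤ d * w ^ 2 := by positivity
          nlinarith
  have ka3 : |a| ^ 3 ≤ d ^ 2 * w ^ 4 / 864 := by
    calc |a| ^ 3 ≤ (d * n * w / 6) ^ 3 := pow_le_pow_left₀ (abs_nonneg _) ka 3
      _ = d ^ 2 * (d * n ^ 3) * w ^ 3 / 216 := by ring
      _ ≤ d ^ 2 * (w / 4) * w ^ 3 / 216 := by
          have : d * n ^ 3 ≤ w / 4 := by linarith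
          gcongr
      _ = _ := by ring
  have kb2 : b ^ 2 ≤ d ^ 2 * w ^ 4 / 2500 := by
    rw [← sq_abs]
    calc |b| ^ 2 ≤ (d * w ^ 2 / 50) ^ 2 := pow_le_pow_left₀ (abs_nonneg _) kb 2
      _ = _ := by ring
  have : 0 ≤ d ^ 2 * w ^ 4 := by positivity
  nlinarith

/-- the radical inequality -/
theorem rad_ineq (κ K c1 : ℝ) (hκ : 6 ≤ κ) (hK : 0 < K) (hc1 : 0 ≤ c1) (ρ G m n N H d s : ℝ)
    (hρ : 0 ≤ ρ) (hm : 1 ≤ m) (hmG : m ≤ G) (hmd : m ≤ d) (hn : 0 ≤ n) (hN : 0 ≤ N) (hs : 0 < s)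
    (h1 : ρ * G * m ≤ c1 * n * N) (h2 : 4 * d * n ^ 3 ≤ G * s) (h3 : N ^ κ < K * H)
    (h4 : H ≤ d ^ 2 * (G * s) ^ 4) :
    ρ * m ^ (2 - 6 / κ) ≤ c1 * K ^ (1 / κ) * s ^ (1 / 3 + 4 / κ) := by
  have hκ0 : 0 < κ := by linarith
  have hG0 : 0 < G := by linarith
  have hd0 : 0 < d := by linarith
  have hm0 : 0 < m := by linarith
  have hGs : 0 < G * s := by positivity
  -- the bound for N
  have n1 : N ≤ K ^ (1 / κ) * d ^ (2 / κ) * (G * s) ^ (4 / κ) := by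
    have q1 : N ^ κ ≤ K * (d ^ 2 * (G * s) ^ 4) :=
      h3.le.trans (mul_le_mul_of_nonneg_left h4 hK.le)
    have q2 : (N ^ κ) ^ (1 / κ) ≤ (K * (d ^ 2 * (G * s) ^ 4)) ^ (1 / κ) :=
      Real.rpow_le_rpow (by positivity) q1 (by positivity)
    rw [← Real.rpow_mul hN, mul_one_div_cancel hκ0.ne', Real.rpow_one] at q2
    refine q2.trans (le_of_eq ?_)
    rw [Real.mul_rpow hK.le (by positivity), Real.mul_rpow (by positivity) (by positivity),
      ← Real.rpow_natCast d 2, ← Real.rpow_natCast (G * s) 4, ← Real.rpow_mul hd0.le,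
      ← Real.rpow_mul hGs.le]
    push_cast
    rw [mul_one_div, mul_one_div, mul_assoc]
  -- the bound for n
  have n2 : n ≤ (G * s) ^ ((1 : ℝ) / 3) * d ^ (-(1 / 3) : ℝ) := by
    have q1 : n ^ 3 ≤ G * s * d⁻¹ := by
      rw [← div_eq_mul_inv, le_div_iff₀ hd0]
      have : 0 ≤ n ^ 3 := by positivity
      nlinarith
    have q2 : (n ^ 3) ^ ((1 : ℝ) / 3) ≤ (G * s * d⁻¹) ^ ((1 : ℝ) / 3) :=
      Real.rpow_le_rpow (by positivity) q1 (by positivity)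
    rw [← Real.rpow_natCast n 3, ← Real.rpow_mul hn] at q2
    norm_num at q2
    refine q2.trans (le_of_eq ?_)
    rw [Real.mul_rpow hGs.le (by positivity), Real.inv_rpow hd0.le, Real.rpow_neg hd0.le]
  have n3 : ρ * G * m ≤ c1 * K ^ (1 / κ) * ((G * s) ^ (1 / 3 + 4 / κ) * d ^ (2 / κ - 1 / 3)) := by
    calc ρ * G * m ≤ c1 * n * N := h1
      _ ≤ c1 * ((G * s) ^ ((1 : ℝ) / 3) * d ^ (-(1 / 3) : ℝ)) *
          (K ^ (1 / κ) * d ^ (2 / κ) * (G * s) ^ (4 / κ)) := by gcongr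
      _ = c1 * K ^ (1 / κ) * (((G * s) ^ ((1 : ℝ) / 3) * (G * s) ^ (4 / κ)) *
          (d ^ (2 / κ) * d ^ (-(1 / 3) : ℝ))) := by ring
      _ = _ := by
          rw [← Real.rpow_add hGs, ← Real.rpow_add hd0]
          congr 3
  have e1 : d ^ (2 / κ - 1 / 3) ≤ m ^ (2 / κ - 1 / 3) := by
    apply Real.rpow_le_rpow_of_nonpos hm0 hmd
    rw [sub_nonpos, div_le_div_iff₀ hκ0 (by norm_num)]
    linarith
  have hlam : 1 / 3 + 4 / κ - 1 ≤ 0 := by
    have : 4 / κ ≤ 4 / 6 := div_le_div_of_nonneg_left (by norm_num) (by norm_num) hκ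
    linarith
  have e2 : G ^ (1 / 3 + 4 / κ - 1) ≤ m ^ (1 / 3 + 4 / κ - 1) :=
    Real.rpow_le_rpow_of_nonpos hm0 hmG hlam
  -- divide by `G m` and multiply by `m ^ (2 - 6/κ)`
  have hA0 : 0 ≤ c1 * K ^ (1 / κ) := by positivity
  have n4 : ρ ≤ c1 * K ^ (1 / κ) * (s ^ (1 / 3 + 4 / κ) * G ^ (1 / 3 + 4 / κ - 1) *
      d ^ (2 / κ - 1 / 3) * m⁻¹) := by
    have q : ρ = ρ * G * m * (G⁻¹ * m⁻¹) := by field_simp
    rw [q]
    calc ρ * G * m * (G⁻¹ * m⁻¹) ≤ c1 * K ^ (1 / κ) *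
          ((G * s) ^ (1 / 3 + 4 / κ) * d ^ (2 / κ - 1 / 3)) * (G⁻¹ * m⁻¹) :=
          mul_le_mul_of_nonneg_right n3 (by positivity)
      _ = _ := by
          rw [Real.mul_rpow hG0.le hs.le, Real.rpow_sub hG0, Real.rpow_one]
          ring
  have n5 : ρ ≤ c1 * K ^ (1 / κ) * (s ^ (1 / 3 + 4 / κ) * m ^ (1 / 3 + 4 / κ - 1) *
      m ^ (2 / κ - 1 / 3) * m⁻¹) := by
    refine n4.trans (mul_le_mul_of_nonneg_left ?_ hA0)
    gcongr
  calc ρ * m ^ (2 - 6 / κ) ≤ c1 * K ^ (1 / κ) * (s ^ (1 / 3 + 4 / κ) *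
        m ^ (1 / 3 + 4 / κ - 1) * m ^ (2 / κ - 1 / 3) * m⁻¹) * m ^ (2 - 6 / κ) :=
        mul_le_mul_of_nonneg_right n5 (by positivity)
    _ = c1 * K ^ (1 / κ) * s ^ (1 / 3 + 4 / κ) * (m ^ (1 / 3 + 4 / κ - 1) *
        m ^ (2 / κ - 1 / 3) * m⁻¹ * m ^ (2 - 6 / κ)) := by ring
    _ = c1 * K ^ (1 / κ) * s ^ (1 / 3 + 4 / κ) := by
        rw [← Real.rpow_neg_one m, ← Real.rpow_add hm0, ← Real.rpow_add hm0, ← Real.rpow_add hm0]
        have : 1 / 3 + 4 / κ - 1 + (2 / κ - 1 / 3) + -1 + (2 - 6 / κ) = 0 := by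
          field_simp
          ring
        rw [this, Real.rpow_zero, mul_one]

end Pool.Agent.W271.Three
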