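import Mathlib
import Pool.Agent.H328R2.ABC.Parts

/-!
# Coprime pairs with small radical: a form of the exponent `4 lam / 7` uniform in the radical
-/

set_option autoImplicit false
set_option linter.unusedVariables false

namespace Pool.Agent.W271.Three

open Finset
open Pool.Agent.H328R2.ABC

/-- the bound `4 lam / 7` -/
def P47 : Prop := ∀ (B lam ε : ℝ), 0 < lam → lam ≤ 1 → 0 < ε →
    ∃ C : ℝ, 0 < C ∧ ∀ X : ℕ, 1 ≤ X → ∀ S : Finset (ℕ × ℕ),
      (∀ t ∈ S, 0 < t.1 ∧ 0 < t.2 ∧ Nat.Coprime t.1 t.2 ∧ t.1 + t.2 ≤ X ∧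
        (rad (t.1 * t.2 * (t.1 + t.2)) : ℝ) ≤ B * ((t.1 + t.2 : ℕ) : ℝ) ^ lam) →
      (S.card : ℝ) ≤ C * (X : ℝ) ^ (4 * lam / 7 + ε)

theorem unif47 (h47 : P47) (B ε : ℝ) (hB : 1 ≤ B) (hε : 0 < ε) :
    ∃ C : ℝ, 0 < C ∧ ∀ X : ℕ, 1 ≤ X → ∀ R : ℝ, 0 < R → ∀ S : Finset (ℕ × ℕ),
      (∀ t ∈ S, 0 < t.1 ∧ 0 < t.2 ∧ Nat.Coprime t.1 t.2 ∧ t.1 + t.2 ≤ X ∧
        (rad (t.1 * t.2 * (t.1 + t.2)) : ℝ) ≤ B * ((t.1 + t.2 : ℕ) : ℝ) ∧
        (rad (t.1 * t.2 * (t.1 + t.2)) : ℝ) ≤ R) →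
      (S.card : ℝ) ≤ C * (X : ℝ) ^ ε * R ^ ((4 : ℝ) / 7) := by
  classical
  obtain ⟨J, hJ⟩ : ∃ J : ℕ, 4 / ε ≤ (J : ℝ) := exists_nat_ge _
  have hJ0 : (0 : ℝ) < J := lt_of_lt_of_le (by positivity) hJ
  have hJ1 : 1 / (J : ℝ) ≤ ε / 4 := by
    rw [div_le_iff₀ hJ0]
    rw [div_le_iff₀ hε] at hJ
    linarith
  have hJn : 1 ≤ J := by
    have : 0 < J := by exact_mod_cast hJ0
    omega
  have hJR : (1 : ℝ) ≤ J := by exact_mod_cast hJn
  obtain ⟨C1, hC1, h1⟩ := h47 B 1 (ε / 4) one_pos (le_refl _) (by positivity)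
  have hch : ∀ k a : ℕ, ∃ C : ℝ, 0 < C ∧ (k + 1 ≤ a → ∀ X : ℕ, 1 ≤ X → ∀ S : Finset (ℕ × ℕ),
      (∀ t ∈ S, 0 < t.1 ∧ 0 < t.2 ∧ Nat.Coprime t.1 t.2 ∧ t.1 + t.2 ≤ X ∧
        (rad (t.1 * t.2 * (t.1 + t.2)) : ℝ) ≤
          1 * ((t.1 + t.2 : ℕ) : ℝ) ^ (((k : ℝ) + 1) / a)) →
      (S.card : ℝ) ≤ C * (X : ℝ) ^ (4 * (((k : ℝ) + 1) / a) / 7 + ε / 4)) := by
    intro k a
    by_cases hka : k + 1 ≤ a
    · have ha0 : (0 : ℝ) < a := by
        have : 0 < a := by omega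
        exact_mod_cast this
      obtain ⟨C, hC, h⟩ := h47 1 (((k : ℝ) + 1) / a) (ε / 4) (by positivity) (by
        rw [div_le_one ha0]; exact_mod_cast hka) (by positivity)
      exact ⟨C, hC, fun _ => h⟩
    · exact ⟨1, one_pos, fun h => absurd h hka⟩
  choose Cf hCf hCb using hch
  set C0 : ℝ := ∑ k ∈ range J, ∑ a ∈ range (J + 1), Cf k a with hC0
  have hC0nn : 0 ≤ C0 := sum_nonneg (fun k _ => sum_nonneg (fun a _ => (hCf k a).le))
  refine ⟨C1 + C0, by positivity, ?_⟩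
  intro X hX R hR S hS
  rcases S.eq_empty_or_nonempty with rfl | ⟨t0, ht0⟩
  · simp only [card_empty, Nat.cast_zero]
    positivity
  obtain ⟨p1, p2, p3, p4, p5, p6⟩ := hS t0 ht0
  have hR1 : 1 ≤ R := by
    have : (1 : ℝ) ≤ rad (t0.1 * t0.2 * (t0.1 + t0.2)) := by exact_mod_cast rad_pos _
    linarith
  have hX2 : 2 ≤ X := by omega
  have hX1 : (1 : ℝ) < X := by exact_mod_cast (by omega : 1 < X)
  have hX0 : (0 : ℝ) < X := by linarith
  have hL : 0 < Real.log X := Real.log_pos hX1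
  have hR47 : (1 : ℝ) ≤ R ^ ((4 : ℝ) / 7) := Real.one_le_rpow hR1 (by norm_num)
  have hXpow : ∀ {s t : ℝ}, s ≤ t → (X : ℝ) ^ s ≤ (X : ℝ) ^ t := fun h =>
    Real.rpow_le_rpow_of_exponent_le hX1.le h
  rcases le_or_gt (X : ℝ) R with hXR | hXR
  · -- large `R`
    have q := h1 X hX S (fun t ht => by
      obtain ⟨q1, q2, q3, q4, q5, q6⟩ := hS t ht
      exact ⟨q1, q2, q3, q4, by rw [Real.rpow_one]; exact q5⟩)
    have e1 : (X : ℝ) ^ (4 * (1 : ℝ) / 7 + ε / 4) ≤ (X : ℝ) ^ ε * R ^ ((4 : ℝ) / 7) := by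
      rw [Real.rpow_add hX0, mul_comm, mul_one]
      exact mul_le_mul (hXpow (by linarith)) (Real.rpow_le_rpow hX0.le hXR (by norm_num))
        (by positivity) (by positivity)
    calc (S.card : ℝ) ≤ C1 * (X : ℝ) ^ (4 * (1 : ℝ) / 7 + ε / 4) := q
      _ ≤ C1 * ((X : ℝ) ^ ε * R ^ ((4 : ℝ) / 7)) := mul_le_mul_of_nonneg_left e1 hC1.le
      _ ≤ (C1 + C0) * ((X : ℝ) ^ ε * R ^ ((4 : ℝ) / 7)) := by
          apply mul_le_mul_of_nonneg_right _ (by positivity)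
          linarith
      _ = _ := by ring
  -- the class of `R`
  set y : ℝ := J * (Real.log R / Real.log X) with hy
  have hlR : 0 ≤ Real.log R := Real.log_nonneg hR1
  have hy0 : 0 ≤ y := by positivity
  have hyJ : y < J := by
    have : Real.log R / Real.log X < 1 := by
      rw [div_lt_one hL]
      exact Real.log_lt_log (by linarith) hXR
    rw [hy]
    nlinarith
  have hpw : ∀ w : ℝ, 0 < w → w = (X : ℝ) ^ ((J * (Real.log w / Real.log X)) / J) := by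
    intro w hw
    rw [mul_comm, mul_div_assoc, div_self hJ0.ne', mul_one, Real.rpow_def_of_pos hX0]
    rw [mul_div_cancel₀ _ hL.ne', Real.exp_log hw]
  set k : ℕ := ⌊y⌋₊ with hk
  have hkJ : k < J := (Nat.floor_lt hy0).mpr hyJ
  have hk1 : (X : ℝ) ^ ((k : ℝ) / J) ≤ R := by
    rw [hpw R (by linarith)]
    apply hXpow
    exact div_le_div_of_nonneg_right (Nat.floor_le hy0) hJ0.le
  have hk2 : R ≤ (X : ℝ) ^ (((k : ℝ) + 1) / J) := by
    conv_lhs => rw [hpw R (by linarith)]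
    apply hXpow
    exact div_le_div_of_nonneg_right (Nat.lt_floor_add_one y).le hJ0.le
  -- the two parts
  set Z : ℝ := R * (X : ℝ) ^ (1 / (J : ℝ)) with hZ
  have hZ1 : 1 ≤ Z := by
    have : (1 : ℝ) ≤ (X : ℝ) ^ (1 / (J : ℝ)) := Real.one_le_rpow hX1.le (by positivity)
    rw [hZ]; nlinarith
  set S1 := S.filter (fun t => ((t.1 + t.2 : ℕ) : ℝ) ≤ Z) with hS1
  set S2 := S.filter (fun t => ¬ ((t.1 + t.2 : ℕ) : ℝ) ≤ Z) with hS2
  have hcard : S.card = S1.card + S2.card := by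
    rw [hS1, hS2]
    exact (card_filter_add_card_filter_not _).symm
  have b1 : (S1.card : ℝ) ≤ C1 * ((X : ℝ) ^ ε * R ^ ((4 : ℝ) / 7)) := by
    have hf1 : 1 ≤ ⌊Z⌋₊ := Nat.le_floor (by rw [Nat.cast_one]; exact hZ1)
    have q := h1 ⌊Z⌋₊ hf1 S1 (fun t ht => by
      rw [hS1, mem_filter] at ht
      obtain ⟨q1, q2, q3, q4, q5, q6⟩ := hS t ht.1
      exact ⟨q1, q2, q3, Nat.le_floor ht.2, by rw [Real.rpow_one]; exact q5⟩)
    have e1 : ((⌊Z⌋₊ : ℕ) : ℝ) ^ (4 * (1 : ℝ) / 7 + ε / 4) ≤ (X : ℝ) ^ ε * R ^ ((4 : ℝ) / 7) := by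
      calc ((⌊Z⌋₊ : ℕ) : ℝ) ^ (4 * (1 : ℝ) / 7 + ε / 4) ≤ Z ^ (4 * (1 : ℝ) / 7 + ε / 4) :=
            Real.rpow_le_rpow (Nat.cast_nonneg _) (Nat.floor_le (by linarith)) (by positivity)
        _ = R ^ ((4 : ℝ) / 7) * R ^ (ε / 4) *
            (X : ℝ) ^ (1 / (J : ℝ) * (4 * (1 : ℝ) / 7 + ε / 4)) := by
            rw [hZ, Real.mul_rpow (by linarith) (by positivity), ← Real.rpow_mul hX0.le,
              Real.rpow_add (by linarith), mul_one]
        _ ≤ R ^ ((4 : ℝ) / 7) * (X : ℝ) ^ (ε / 4) * (X : ℝ) ^ (ε / 2) := by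
            have h2 : R ^ (ε / 4) ≤ (X : ℝ) ^ (ε / 4) :=
              Real.rpow_le_rpow (by linarith) hXR.le (by positivity)
            have h3 : (X : ℝ) ^ (1 / (J : ℝ) * (4 * (1 : ℝ) / 7 + ε / 4)) ≤
                (X : ℝ) ^ (ε / 2) := by
              apply hXpow
              have h4 : 1 / (J : ℝ) ≤ 1 := by
                rw [div_le_one hJ0]; exact hJR
              have h5 : 0 ≤ 1 / (J : ℝ) := by positivity
              nlinarith
            gcongr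
        _ = R ^ ((4 : ℝ) / 7) * (X : ℝ) ^ (ε / 4 + ε / 2) := by
            rw [mul_assoc, ← Real.rpow_add hX0]
        _ ≤ R ^ ((4 : ℝ) / 7) * (X : ℝ) ^ ε := by
            apply mul_le_mul_of_nonneg_left _ (by positivity)
            exact hXpow (by linarith)
        _ = _ := by ring
    exact q.trans (mul_le_mul_of_nonneg_left e1 hC1.le)
  have b2 : (S2.card : ℝ) ≤ C0 * ((X : ℝ) ^ ε * R ^ ((4 : ℝ) / 7)) := by
    let cl : ℕ × ℕ → ℕ := fun t => ⌊(J : ℝ) * (Real.log ((t.1 + t.2 : ℕ) : ℝ) / Real.log X)⌋₊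
    have hcl : ∀ t ∈ S2, cl t ∈ range (J + 1) ∧ k + 1 ≤ cl t ∧
        (X : ℝ) ^ ((cl t : ℝ) / J) ≤ ((t.1 + t.2 : ℕ) : ℝ) ∧
        ((t.1 + t.2 : ℕ) : ℝ) ≤ (X : ℝ) ^ (((cl t : ℝ) + 1) / J) := by
      intro t ht
      rw [hS2, mem_filter, not_le] at ht
      obtain ⟨q1, q2, q3, q4, q5, q6⟩ := hS t ht.1
      set s : ℝ := ((t.1 + t.2 : ℕ) : ℝ) with hs
      have hs1 : 1 ≤ s := by rw [hs]; exact_mod_cast (by omega : 1 ≤ t.1 + t.2)
      have hsX : s ≤ X := by rw [hs]; exact_mod_cast q4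
      have hls : 0 ≤ Real.log s := Real.log_nonneg hs1
      set w : ℝ := (J : ℝ) * (Real.log s / Real.log X) with hw
      have hw0 : 0 ≤ w := by positivity
      have hwJ : w ≤ J := by
        have : Real.log s / Real.log X ≤ 1 := by
          rw [div_le_one hL]
          exact Real.log_le_log (by linarith) hsX
        rw [hw]
        nlinarith
      have hclw : cl t = ⌊w⌋₊ := rfl
      have hkw : ((k + 1 : ℕ) : ℝ) ≤ w := by
        have h2 : (X : ℝ) ^ (((k : ℝ) + 1) / J) < s := by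
          calc (X : ℝ) ^ (((k : ℝ) + 1) / J) = (X : ℝ) ^ ((k : ℝ) / J) * (X : ℝ) ^ (1 / (J : ℝ)) := by
                rw [← Real.rpow_add hX0, add_div]
            _ ≤ R * (X : ℝ) ^ (1 / (J : ℝ)) := by gcongr
            _ < s := ht.2
        rw [hpw s (by linarith)] at h2
        have h3 := (Real.rpow_lt_rpow_left_iff hX1).mp h2
        have h4 := (div_lt_div_iff_of_pos_right hJ0).mp h3
        push_cast
        linarith
      refine ⟨?_, ?_, ?_, ?_⟩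
      · rw [mem_range, hclw, Nat.lt_succ_iff]
        apply Nat.floor_le_of_le
        exact hwJ
      · rw [hclw]
        exact Nat.le_floor hkw
      · rw [hclw]
        conv_rhs => rw [hpw s (by linarith)]
        apply hXpow
        exact div_le_div_of_nonneg_right (Nat.floor_le hw0) hJ0.le
      · rw [hclw]
        conv_lhs => rw [hpw s (by linarith)]
        apply hXpow
        exact div_le_div_of_nonneg_right (Nat.lt_floor_add_one w).le hJ0.le
    have e1 : S2.card = ∑ a ∈ range (J + 1), (S2.filter (fun t => cl t = a)).card :=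
      card_eq_sum_card_fiberwise (fun t ht => (hcl t ht).1)
    have e2 : ∀ a ∈ range (J + 1), ((S2.filter (fun t => cl t = a)).card : ℝ) ≤
        Cf k a * ((X : ℝ) ^ ε * R ^ ((4 : ℝ) / 7)) := by
      intro a ha
      rw [mem_range] at ha
      rcases (S2.filter (fun t => cl t = a)).eq_empty_or_nonempty with he | ⟨t1, ht1⟩
      · rw [he, card_empty, Nat.cast_zero]
        have := (hCf k a).le
        positivity
      have hka : k + 1 ≤ a := by
        rw [mem_filter] at ht1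
        have := (hcl t1 ht1.1).2.1
        omega
      have ha0 : (0 : ℝ) < a := by exact_mod_cast (by omega : 0 < a)
      have haJ : (a : ℝ) ≤ J := by exact_mod_cast (by omega : a ≤ J)
      set lam : ℝ := ((k : ℝ) + 1) / a with hlam
      have hlam0 : 0 < lam := by positivity
      have hlam1 : lam ≤ 1 := by
        rw [hlam, div_le_one ha0]; exact_mod_cast hka
      set Y : ℝ := (X : ℝ) ^ (((a : ℝ) + 1) / J) with hY
      have hY1 : 1 ≤ Y := Real.one_le_rpow hX1.le (by positivity)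
      have q := hCb k a hka ⌊Y⌋₊ (Nat.le_floor (by rw [Nat.cast_one]; exact hY1))
        (S2.filter (fun t => cl t = a)) (fun t ht => by
          rw [mem_filter] at ht
          obtain ⟨c1, c2, c3, c4⟩ := hcl t ht.1
          rw [ht.2] at c3 c4
          have ht2 := ht.1
          rw [hS2, mem_filter] at ht2
          obtain ⟨q1, q2, q3, q4, q5, q6⟩ := hS t ht2.1
          refine ⟨q1, q2, q3, Nat.le_floor c4, ?_⟩
          rw [one_mul]
          calc (rad (t.1 * t.2 * (t.1 + t.2)) : ℝ) ≤ R := q6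
            _ ≤ (X : ℝ) ^ (((k : ℝ) + 1) / J) := hk2
            _ = ((X : ℝ) ^ ((a : ℝ) / J)) ^ lam := by
                rw [← Real.rpow_mul hX0.le]
                congr 1
                rw [hlam]
                field_simp
            _ ≤ ((t.1 + t.2 : ℕ) : ℝ) ^ lam :=
                Real.rpow_le_rpow (by positivity) c3 hlam0.le)
      have e3 : ((⌊Y⌋₊ : ℕ) : ℝ) ^ (4 * lam / 7 + ε / 4) ≤ (X : ℝ) ^ ε * R ^ ((4 : ℝ) / 7) := by
        have ex : ((a : ℝ) + 1) / J * (4 * lam / 7 + ε / 4) ≤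
            ε + (k : ℝ) / J * ((4 : ℝ) / 7) := by
          have f1 : ((a : ℝ) + 1) / J * (4 * lam / 7) =
              (k : ℝ) / J * (4 / 7) + 1 / J * (4 / 7) + 1 / J * (4 / 7) * lam := by
            rw [hlam]
            field_simp
          have f2 : ((a : ℝ) + 1) / J ≤ 2 := by
            rw [div_le_iff₀ hJ0]
            linarith
          have f3 : 1 / (J : ℝ) * (4 / 7) * lam ≤ 1 / J * (4 / 7) :=
            mul_le_of_le_one_right (by positivity) hlam1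
          have f4 : ((a : ℝ) + 1) / J * (ε / 4) ≤ 2 * (ε / 4) := by gcongr
          have f5 : 1 / (J : ℝ) * (4 / 7) ≤ ε / 4 * (4 / 7) := by gcongr
          rw [mul_add, f1]
          linarith
        calc ((⌊Y⌋₊ : ℕ) : ℝ) ^ (4 * lam / 7 + ε / 4) ≤ Y ^ (4 * lam / 7 + ε / 4) :=
              Real.rpow_le_rpow (Nat.cast_nonneg _) (Nat.floor_le (by linarith)) (by positivity)
          _ = (X : ℝ) ^ (((a : ℝ) + 1) / J * (4 * lam / 7 + ε / 4)) := by
              rw [hY, ← Real.rpow_mul hX0.le]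
          _ ≤ (X : ℝ) ^ (ε + (k : ℝ) / J * ((4 : ℝ) / 7)) := hXpow ex
          _ = (X : ℝ) ^ ε * ((X : ℝ) ^ ((k : ℝ) / J)) ^ ((4 : ℝ) / 7) := by
              rw [Real.rpow_add hX0, ← Real.rpow_mul hX0.le]
          _ ≤ (X : ℝ) ^ ε * R ^ ((4 : ℝ) / 7) := by gcongr
      exact q.trans (mul_le_mul_of_nonneg_left e3 (hCf k a).le)
    have e4 : ∑ a ∈ range (J + 1), Cf k a ≤ C0 :=
      single_le_sum (f := fun k => ∑ a ∈ range (J + 1), Cf k a)
        (fun k _ => sum_nonneg (fun a _ => (hCf k a).le)) (mem_range.mpr hkJ)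
    calc (S2.card : ℝ) = ∑ a ∈ range (J + 1), ((S2.filter (fun t => cl t = a)).card : ℝ) := by
          rw [e1]; push_cast; rfl
      _ ≤ ∑ a ∈ range (J + 1), Cf k a * ((X : ℝ) ^ ε * R ^ ((4 : ℝ) / 7)) := sum_le_sum e2
      _ = (∑ a ∈ range (J + 1), Cf k a) * ((X : ℝ) ^ ε * R ^ ((4 : ℝ) / 7)) := by
          rw [sum_mul]
      _ ≤ C0 * ((X : ℝ) ^ ε * R ^ ((4 : ℝ) / 7)) :=
          mul_le_mul_of_nonneg_right e4 (by positivity)
  rw [hcard]
  push_cast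
  calc (S1.card : ℝ) + S2.card ≤ C1 * ((X : ℝ) ^ ε * R ^ ((4 : ℝ) / 7)) +
        C0 * ((X : ℝ) ^ ε * R ^ ((4 : ℝ) / 7)) := add_le_add b1 b2
    _ = _ := by ring

end Pool.Agent.W271.Three
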